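import Mathlib

set_option autoImplicit false

/-!
# Farey geometry of `ℤ[√2]`

Totally positive elements of `ℤ[√2]`, their angle `th z = ½ log (σ₁ z / σ₂ z)`, the
determinant `det z w` and the bilinear form `B z w` (so that `star z * w = B z w + det z w √2`).
An *edge* is a pair `(a, b)` of totally positive elements with `det a b = 1`; for it
`N a * N b = (B a b)^2 - 2`.
-/

namespace Pool.Agent.Lib.MP_0b748d_nt

open Zsqrtd

noncomputable section

/-- first real embedding -/
def s1 (z : ℤ√2) : ℝ := (z.re : ℝ) + (z.im : ℝ) * √2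

/-- second real embedding -/
def s2 (z : ℤ√2) : ℝ := (z.re : ℝ) - (z.im : ℝ) * √2

/-- totally positive -/
def TP (z : ℤ√2) : Prop := 0 < s1 z ∧ 0 < s2 z

/-- the norm form -/
def nm (z : ℤ√2) : ℤ := z.re ^ 2 - 2 * z.im ^ 2

/-- the angle of a totally positive element -/
def th (z : ℤ√2) : ℝ := (Real.log (s1 z) - Real.log (s2 z)) / 2

/-- determinant -/
def det (z w : ℤ√2) : ℤ := z.re * w.im - z.im * w.re

/-- bilinear form -/
def B (z w : ℤ√2) : ℤ := z.re * w.re - 2 * z.im * w.im

lemma sq2 : (√2 : ℝ) * √2 = 2 := Real.mul_self_sqrt (by norm_num)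

lemma sqrt2_pos : (0 : ℝ) < √2 := by positivity

lemma sqrt2_lt : (√2 : ℝ) < 1.415 := by
  have := sq2
  nlinarith [sqrt2_pos]

lemma lt_sqrt2 : (1.414 : ℝ) < √2 := by
  have := sq2
  nlinarith [sqrt2_pos]

lemma s1_mul (z w : ℤ√2) : s1 (z * w) = s1 z * s1 w := by
  simp only [s1, re_mul, im_mul]
  push_cast
  have := sq2
  linear_combination (-(z.im : ℝ) * w.im) * this

lemma s2_mul (z w : ℤ√2) : s2 (z * w) = s2 z * s2 w := by
  simp only [s2, re_mul, im_mul]
  push_cast
  have := sq2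
  linear_combination (-(z.im : ℝ) * w.im) * this

lemma s1_add (z w : ℤ√2) : s1 (z + w) = s1 z + s1 w := by
  simp only [s1, re_add, im_add]
  push_cast
  ring

lemma s2_add (z w : ℤ√2) : s2 (z + w) = s2 z + s2 w := by
  simp only [s2, re_add, im_add]
  push_cast
  ring

lemma s1_star (z : ℤ√2) : s1 (star z) = s2 z := by
  simp [s1, s2]
  ring

lemma s2_star (z : ℤ√2) : s2 (star z) = s1 z := by
  simp [s1, s2]

lemma s1_mul_s2 (z : ℤ√2) : s1 z * s2 z = nm z := by
  simp only [s1, s2, nm]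
  push_cast
  have := sq2
  linear_combination (-(z.im : ℝ) ^ 2) * this

lemma nm_mul (z w : ℤ√2) : nm (z * w) = nm z * nm w := by
  simp only [nm, re_mul, im_mul]
  ring

lemma nm_star (z : ℤ√2) : nm (star z) = nm z := by
  simp [nm]

lemma TP.mul {z w : ℤ√2} (hz : TP z) (hw : TP w) : TP (z * w) := by
  refine ⟨?_, ?_⟩
  · rw [s1_mul]; exact mul_pos hz.1 hw.1
  · rw [s2_mul]; exact mul_pos hz.2 hw.2

lemma TP.add {z w : ℤ√2} (hz : TP z) (hw : TP w) : TP (z + w) := by
  refine ⟨?_, ?_⟩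
  · rw [s1_add]; exact add_pos hz.1 hw.1
  · rw [s2_add]; exact add_pos hz.2 hw.2

lemma TP.star {z : ℤ√2} (hz : TP z) : TP (star z) := by
  refine ⟨?_, ?_⟩
  · rw [s1_star]; exact hz.2
  · rw [s2_star]; exact hz.1

lemma TP.nm_pos {z : ℤ√2} (hz : TP z) : 0 < nm z := by
  have h := mul_pos hz.1 hz.2
  rw [s1_mul_s2] at h
  exact_mod_cast h

lemma TP.re_pos {z : ℤ√2} (hz : TP z) : 0 < z.re := by
  have h : 0 < s1 z + s2 z := add_pos hz.1 hz.2
  have h2 : s1 z + s2 z = 2 * (z.re : ℝ) := by simp [s1, s2]; ring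
  rw [h2] at h
  have : (0 : ℝ) < z.re := by linarith
  exact_mod_cast this

/-- criterion for total positivity -/
lemma TP_iff (z : ℤ√2) : TP z ↔ 0 < z.re ∧ 0 < nm z := by
  constructor
  · intro h; exact ⟨h.re_pos, h.nm_pos⟩
  · rintro ⟨h1, h2⟩
    have h3 : s1 z + s2 z = 2 * (z.re : ℝ) := by simp [s1, s2]; ring
    have h4 : s1 z * s2 z = nm z := s1_mul_s2 z
    have h1' : (0 : ℝ) < z.re := by exact_mod_cast h1
    have h2' : (0 : ℝ) < nm z := by exact_mod_cast h2
    rcases lt_or_ge 0 (s1 z) with h | h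
    · refine ⟨h, ?_⟩
      by_contra hc
      push Not at hc
      nlinarith
    · exfalso
      rcases lt_or_ge 0 (s2 z) with h' | h' <;> nlinarith

lemma th_mul {z w : ℤ√2} (hz : TP z) (hw : TP w) : th (z * w) = th z + th w := by
  simp only [th, s1_mul, s2_mul]
  rw [Real.log_mul hz.1.ne' hw.1.ne', Real.log_mul hz.2.ne' hw.2.ne']
  ring

lemma th_star (z : ℤ√2) : th (star z) = - th z := by
  simp only [th, s1_star, s2_star]
  ring

lemma B_sq (z w : ℤ√2) : nm z * nm w = (B z w) ^ 2 - 2 * (det z w) ^ 2 := by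
  simp only [nm, B, det]
  ring

lemma cross1 (z w : ℤ√2) : s1 w * s2 z = (B z w : ℝ) + (det z w : ℝ) * √2 := by
  simp only [s1, s2, B, det]
  push_cast
  have := sq2
  linear_combination (-(z.im : ℝ) * w.im) * this

lemma cross2 (z w : ℤ√2) : s1 z * s2 w = (B z w : ℝ) - (det z w : ℝ) * √2 := by
  simp only [s1, s2, B, det]
  push_cast
  have := sq2
  linear_combination (-(z.im : ℝ) * w.im) * this

lemma th_sub {z w : ℤ√2} (hz : TP z) (hw : TP w) :
    th w - th z = Real.log ((s1 w * s2 z) / (s1 z * s2 w)) / 2 := by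
  rw [Real.log_div (mul_pos hw.1 hz.2).ne' (mul_pos hz.1 hw.2).ne',
    Real.log_mul hw.1.ne' hz.2.ne', Real.log_mul hz.1.ne' hw.2.ne']
  simp only [th]
  ring

lemma th_lt_iff {z w : ℤ√2} (hz : TP z) (hw : TP w) : th z < th w ↔ 0 < det z w := by
  have h1 := cross1 z w
  have h2 := cross2 z w
  have hp := mul_pos hz.1 hw.2
  have hp' := mul_pos hw.1 hz.2
  rw [← sub_pos, th_sub hz hw]
  have h3 : 0 < Real.log ((s1 w * s2 z) / (s1 z * s2 w)) / 2 ↔
      1 < (s1 w * s2 z) / (s1 z * s2 w) := by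
    rw [← Real.log_pos_iff (by positivity)]
    constructor <;> intro h <;> linarith
  rw [h3, one_lt_div hp, h1, h2]
  have hs := sqrt2_pos
  constructor
  · intro h
    have : (0 : ℝ) < det z w := by
      by_contra hc
      push Not at hc
      nlinarith
    exact_mod_cast this
  · intro h
    have : (0 : ℝ) < det z w := by exact_mod_cast h
    nlinarith

lemma det_neg (z w : ℤ√2) : det w z = - det z w := by
  simp only [det]; ring

lemma B_comm (z w : ℤ√2) : B w z = B z w := by
  simp only [B]; ring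

lemma th_le_iff {z w : ℤ√2} (hz : TP z) (hw : TP w) : th z ≤ th w ↔ 0 ≤ det z w := by
  have h := th_lt_iff hw hz
  rw [det_neg] at h
  constructor
  · intro h1
    by_contra hc
    push Not at hc
    have := h.2 (by omega)
    linarith
  · intro h1
    by_contra hc
    push Not at hc
    have := h.1 hc
    omega

lemma B_pos {z w : ℤ√2} (hz : TP z) (hw : TP w) : 0 < B z w := by
  have h1 := cross1 z w
  have h2 := cross2 z w
  have hp := mul_pos hz.1 hw.2
  have hp' := mul_pos hw.1 hz.2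
  have : (0 : ℝ) < B z w := by linarith
  exact_mod_cast this

lemma B_edge_ge {a b : ℤ√2} (ha : TP a) (hb : TP b) (h : det a b = 1) : 2 ≤ B a b := by
  have h1 := B_sq a b
  have h2 := ha.nm_pos
  have h3 := hb.nm_pos
  have h4 := B_pos ha hb
  rw [h] at h1
  by_contra hc
  push Not at hc
  have h5 : B a b = 1 := by omega
  rw [h5] at h1
  have := mul_pos h2 h3
  omega

/-- length of an edge: upper bound -/
lemma edge_len_le {a b : ℤ√2} (ha : TP a) (hb : TP b) (h : det a b = 1) :
    th b - th a ≤ 5 / (B a b : ℝ) := by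
  have hn := B_edge_ge ha hb h
  have hn' : (2 : ℝ) ≤ B a b := by exact_mod_cast hn
  have h1 := cross1 a b
  have h2 := cross2 a b
  rw [h] at h1 h2
  simp only [Int.cast_one, one_mul] at h1 h2
  rw [th_sub ha hb, h1, h2]
  set n : ℝ := (B a b : ℝ)
  have hs := sqrt2_lt
  have hs0 := sqrt2_pos
  have hd : 0 < n - √2 := by linarith
  have hq : 0 < (n + √2) / (n - √2) := by positivity
  have h3 := Real.log_le_sub_one_of_pos hq
  have h4 : (n + √2) / (n - √2) - 1 = 2 * √2 / (n - √2) := by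
    rw [div_sub_one hd.ne']
    ring
  rw [h4] at h3
  have h5 : 2 * √2 / (n - √2) ≤ 2 * (5 / n) := by
    rw [mul_div_assoc, mul_le_mul_iff_right₀ (by norm_num), div_le_div_iff₀ (by linarith) (by linarith)]
    nlinarith
  linarith

/-- length of an edge: lower bound -/
lemma edge_len_ge {a b : ℤ√2} (ha : TP a) (hb : TP b) (h : det a b = 1) :
    1 / (2 * (B a b : ℝ)) ≤ th b - th a := by
  have hn := B_edge_ge ha hb h
  have hn' : (2 : ℝ) ≤ B a b := by exact_mod_cast hn
  have h1 := cross1 a b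
  have h2 := cross2 a b
  rw [h] at h1 h2
  simp only [Int.cast_one, one_mul] at h1 h2
  rw [th_sub ha hb, h1, h2]
  set n : ℝ := (B a b : ℝ)
  have hs := sqrt2_lt
  have hs' := lt_sqrt2
  have hd : 0 < n - √2 := by linarith
  have hq : 0 < (n + √2) / (n - √2) := by positivity
  have h3 := Real.one_sub_inv_le_log_of_pos hq
  have hd2 : 0 < n + √2 := by linarith
  have h4 : 1 - ((n + √2) / (n - √2))⁻¹ = 2 * √2 / (n + √2) := by
    rw [inv_div, one_sub_div hd2.ne']
    ring
  rw [h4] at h3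
  have h5 : 2 * (1 / (2 * n)) ≤ 2 * √2 / (n + √2) := by
    rw [mul_div_assoc, mul_le_mul_iff_right₀ (by norm_num), div_le_div_iff₀ (by linarith) (by linarith)]
    nlinarith
  linarith

end

end Pool.Agent.Lib.MP_0b748d_nt
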