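import Pool.Agent.Lib.MP_0b748d_nt.Basic

section

set_option autoImplicit false

/-!
# Connecting two primitive vectors by Farey edges inside the triangle they span
-/

namespace Pool.Agent.Lib.MP_0b748d_nt

open Zsqrtd

noncomputable section

/-- primitive element -/
def Prim (z : ℤ√2) : Prop := IsCoprime z.re z.im

lemma Prim_of_det {v c : ℤ√2} (h : det v c = 1) : Prim c :=
  ⟨-v.im, v.re, by simp only [det] at h; linarith⟩

lemma Prim_of_det' {v c : ℤ√2} (h : det c v = 1) : Prim c :=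
  ⟨v.im, -v.re, by simp only [det] at h; linarith⟩

lemma B_self (v : ℤ√2) : B v v = nm v := by
  simp only [B, nm]; ring

theorem hull_aux (F : ℤ√2 → ℤ) (X : ℤ) (lo hi : ℝ)
    (hE : ∀ a b, TP a → TP b → det a b = 1 → lo ≤ th a → th b ≤ hi → B a b ≤ X → F a = F b) :
    ∀ D : ℕ, ∀ v w, TP v → TP w → Prim v → Prim w → det v w = D → 1 ≤ D → lo ≤ th v →
      th w ≤ hi → nm v ≤ X → nm w ≤ X → B v w ≤ X → F v = F w := by
  intro D
  induction D using Nat.strong_induction_on with
  | _ D ih =>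
  intro v w hv hw pv pw hD h1D hlo hhi hnv hnw hB
  rcases Nat.eq_or_lt_of_le h1D with h1 | h1
  · subst h1
    exact hE v w hv hw (by simpa using hD) hlo hhi hB
  obtain ⟨u1, u2, hu⟩ := pv
  -- the basic vector
  set c0 : ℤ√2 := ⟨-u2, u1⟩ with hc0
  have hD0 : (0 : ℤ) < D := by exact_mod_cast (by omega : 0 < D)
  have hXpos : 0 < X := lt_of_lt_of_le hv.nm_pos hnv
  set k : ℤ := u1 * (w.re + D * u2) + u2 * (w.im - D * u1) with hk
  have hdet : v.re * w.im - v.im * w.re = D := hD
  have e1 : w.re + D * u2 = k * v.re := by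
    have : v.re * (w.im - D * u1) = v.im * (w.re + D * u2) := by
      linear_combination hdet - (D : ℤ) * hu
    rw [hk]
    linear_combination (-(w.re + D * u2)) * hu - u2 * this
  have e2 : w.im - D * u1 = k * v.im := by
    have : v.re * (w.im - D * u1) = v.im * (w.re + D * u2) := by
      linear_combination hdet - (D : ℤ) * hu
    rw [hk]
    linear_combination (-(w.im - D * u1)) * hu + u1 * this
  set j : ℤ := (-k) % D with hj
  set q : ℤ := (-k) / D with hq
  have hjq : D * q + j = -k := Int.mul_ediv_add_emod (-k) D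
  have hj0 : 0 ≤ j := Int.emod_nonneg _ hD0.ne'
  have hjD : j < D := Int.emod_lt_of_pos _ hD0
  set c : ℤ√2 := ⟨-u2 - q * v.re, u1 - q * v.im⟩ with hc
  have c1 : (D : ℤ) * c.re = w.re + j * v.re := by
    simp only [hc]
    linear_combination (-1) * e1 + (-v.re) * hjq
  have c2 : (D : ℤ) * c.im = w.im + j * v.im := by
    simp only [hc]
    linear_combination (-1) * e2 + (-v.im) * hjq
  have hj1 : 1 ≤ j := by
    rcases hj0.lt_or_eq with h | h
    · omega
    exfalso
    rw [← h] at c1 c2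
    obtain ⟨x, y, hxy⟩ := pw
    have hdvd : (D : ℤ) ∣ 1 := by
      rw [← hxy]
      apply dvd_add
      · exact Dvd.dvd.mul_left ⟨c.re, by linarith⟩ x
      · exact Dvd.dvd.mul_left ⟨c.im, by linarith⟩ y
    have := Int.le_of_dvd one_pos hdvd
    omega
  have hDR : (0 : ℝ) < D := by exact_mod_cast hD0
  have hjR : (0 : ℝ) < (j : ℝ) := by exact_mod_cast hj1
  have c1' : (D : ℝ) * c.re = w.re + j * v.re := by exact_mod_cast c1
  have c2' : (D : ℝ) * c.im = w.im + j * v.im := by exact_mod_cast c2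
  have hcTP : TP c := by
    constructor
    · have : (D : ℝ) * s1 c = s1 w + j * s1 v := by
        simp only [s1]
        linear_combination c1' + √2 * c2'
      have h2 : 0 < (D : ℝ) * s1 c := by
        rw [this]; exact add_pos hw.1 (mul_pos hjR hv.1)
      exact (mul_pos_iff_of_pos_left hDR).1 h2
    · have : (D : ℝ) * s2 c = s2 w + j * s2 v := by
        simp only [s2]
        linear_combination c1' - √2 * c2'
      have h2 : 0 < (D : ℝ) * s2 c := by
        rw [this]; exact add_pos hw.2 (mul_pos hjR hv.2)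
      exact (mul_pos_iff_of_pos_left hDR).1 h2
  have hdvc : det v c = 1 := by
    simp only [det, hc]
    linear_combination hu
  have hdcw : det c w = j := by
    have : (D : ℤ) * det c w = D * j := by
      simp only [det]
      linear_combination w.im * c1 - w.re * c2 + j * hdet
    exact mul_left_cancel₀ hD0.ne' this
  have hBs : B v w ≤ X := hB
  have hjD1 : 1 + j ≤ D := by omega
  have hnc : nm c ≤ X := by
    have h : (D : ℤ) ^ 2 * nm c = nm w + 2 * j * B v w + j ^ 2 * nm v := by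
      simp only [nm, B]
      have e1 : ((D : ℤ) * c.re) ^ 2 = (w.re + j * v.re) ^ 2 := by rw [c1]
      have e2 : ((D : ℤ) * c.im) ^ 2 = (w.im + j * v.im) ^ 2 := by rw [c2]
      linear_combination e1 - 2 * e2
    have h2 : nm w + 2 * j * B v w + j ^ 2 * nm v ≤ (1 + j) ^ 2 * X := by
      nlinarith [mul_le_mul_of_nonneg_left hBs hj0, mul_le_mul_of_nonneg_left hnv (sq_nonneg j)]
    have h3 : (1 + j) ^ 2 * X ≤ (D : ℤ) ^ 2 * X := by
      apply mul_le_mul_of_nonneg_right _ hXpos.le
      exact pow_le_pow_left₀ (by omega) hjD1 2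
    have h4 : (D : ℤ) ^ 2 * nm c ≤ (D : ℤ) ^ 2 * X := by rw [h]; exact h2.trans h3
    exact le_of_mul_le_mul_left h4 (by positivity)
  have hBvc : B v c ≤ X := by
    have h : (D : ℤ) * B v c = B v w + j * nm v := by
      simp only [nm, B]
      linear_combination v.re * c1 - 2 * v.im * c2
    have h2 : (D : ℤ) * B v c ≤ D * X := by
      rw [h]
      nlinarith [mul_le_mul_of_nonneg_left hnv hj0, mul_le_mul_of_nonneg_right hjD1 hXpos.le]
    exact le_of_mul_le_mul_left h2 hD0
  have hBcw : B c w ≤ X := by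
    have h : (D : ℤ) * B c w = nm w + j * B v w := by
      simp only [nm, B]
      linear_combination w.re * c1 - 2 * w.im * c2
    have h2 : (D : ℤ) * B c w ≤ D * X := by
      rw [h]
      nlinarith [mul_le_mul_of_nonneg_left hBs hj0, mul_le_mul_of_nonneg_right hjD1 hXpos.le]
    exact le_of_mul_le_mul_left h2 hD0
  have hvc : th v < th c := (th_lt_iff hv hcTP).2 (by rw [hdvc]; exact one_pos)
  have hcw : th c < th w := (th_lt_iff hcTP hw).2 (by rw [hdcw]; omega)
  have hpc : Prim c := Prim_of_det hdvc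
  have s1' : F v = F c := hE v c hv hcTP hdvc hlo (hcw.le.trans hhi) hBvc
  obtain ⟨jn, hjn⟩ := Int.eq_ofNat_of_zero_le hj0
  have s2' : F c = F w := by
    refine ih jn (by omega) c w hcTP hw hpc pw (by rw [hdcw, hjn]) (by omega)
      (hlo.trans hvc.le) hhi hnc hnw hBcw
  exact s1'.trans s2'

theorem hull (F : ℤ√2 → ℤ) (X : ℤ) (lo hi : ℝ)
    (hE : ∀ a b, TP a → TP b → det a b = 1 → lo ≤ th a → th b ≤ hi → B a b ≤ X → F a = F b)
    (v w : ℤ√2) (hv : TP v) (hw : TP w) (pv : Prim v) (pw : Prim w)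
    (hlov : lo ≤ th v) (hlow : lo ≤ th w) (hhiv : th v ≤ hi) (hhiw : th w ≤ hi)
    (hnv : nm v ≤ X) (hnw : nm w ≤ X) (hB : B v w ≤ X) : F v = F w := by
  rcases lt_trichotomy (det v w) 0 with h | h | h
  · obtain ⟨D, hD⟩ := Int.eq_ofNat_of_zero_le (show 0 ≤ det w v by rw [det_neg]; omega)
    rw [det_neg] at hD
    refine (hull_aux F X lo hi hE D w v hw hv pw pv (by rw [det_neg, hD]) ?_ hlow hhiv
      hnw hnv (by rw [B_comm]; exact hB)).symm
    have : (0 : ℤ) < (D : ℤ) := by
      have : ((D : ℕ) : ℤ) = Int.ofNat D := rfl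
      omega
    omega
  · -- parallel primitive vectors are equal
    have : v = w := by
      obtain ⟨u1, u2, hu⟩ := pv
      obtain ⟨x1, x2, hx⟩ := pw
      have hd : v.re * w.im - v.im * w.re = 0 := h
      -- w = k v, with k = u1 w.re + u2 w.im
      set k : ℤ := u1 * w.re + u2 * w.im with hk
      have e1 : w.re = k * v.re := by
        rw [hk]; linear_combination (-w.re) * hu - u2 * hd
      have e2 : w.im = k * v.im := by
        rw [hk]; linear_combination (-w.im) * hu + u1 * hd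
      have hk1 : k ∣ 1 := by
        rw [← hx]
        apply dvd_add
        · exact Dvd.dvd.mul_left ⟨v.re, e1⟩ x1
        · exact Dvd.dvd.mul_left ⟨v.im, e2⟩ x2
      have hkpos : 0 < k := by
        have h1 := hv.re_pos
        have h2 := hw.re_pos
        rw [e1] at h2
        exact (pos_iff_pos_of_mul_pos h2).2 h1
      have hk2 : k = 1 := by
        have := Int.le_of_dvd one_pos hk1
        omega
      rw [hk2] at e1 e2
      ext
      · linarith
      · linarith
    rw [this]
  · obtain ⟨D, hD⟩ := Int.eq_ofNat_of_zero_le h.le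
    refine hull_aux F X lo hi hE D v w hv hw pv pw (by rw [hD]) ?_ hlov hhiw
      hnv hnw hB
    have : (0 : ℤ) < (D : ℤ) := by
      have : ((D : ℕ) : ℤ) = Int.ofNat D := rfl
      omega
    omega

end

end Pool.Agent.Lib.MP_0b748d_nt
end

section

set_option autoImplicit false

/-!
# Every angle lies in a Farey edge of prescribed size, unless it is exceptional
-/

namespace Pool.Agent.Lib.MP_0b748d_nt

open Zsqrtd

noncomputable section

lemma det_mul_left (u z w : ℤ√2) : det (u * z) (u * w) = nm u * det z w := by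
  simp only [det, nm, re_mul, im_mul]; ring

lemma B_mul_left (u z w : ℤ√2) : B (u * z) (u * w) = nm u * B z w := by
  simp only [B, nm, re_mul, im_mul]; ring

/-- the totally positive fundamental unit -/
def uu : ℤ√2 := ⟨3, 2⟩

lemma nm_uu : nm uu = 1 := by simp [nm, uu]

lemma TP_uu : TP uu := (TP_iff _).2 ⟨by simp [uu], by rw [nm_uu]; exact one_pos⟩

lemma TP_one : TP 1 := (TP_iff _).2 ⟨by simp, by simp [nm]⟩

lemma TP_w : TP ⟨2, 1⟩ := (TP_iff _).2 ⟨by simp, by simp [nm]⟩

lemma th_one : th 1 = 0 := by simp [th, s1, s2]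

lemma th_uu_pos : 0 < th uu := by
  rw [← th_one]
  exact (th_lt_iff TP_one TP_uu).2 (by simp [det, uu])

lemma base_edge (θ : ℝ) (h0 : 0 ≤ θ) (h1 : θ ≤ th uu) :
    ∃ a b : ℤ√2, TP a ∧ TP b ∧ det a b = 1 ∧ B a b = 2 ∧ th a ≤ θ ∧ θ ≤ th b := by
  rcases le_total θ (th ⟨2, 1⟩) with h | h
  · exact ⟨1, ⟨2, 1⟩, TP_one, TP_w, by simp [det], by simp [B], by rw [th_one]; exact h0, h⟩
  · exact ⟨⟨2, 1⟩, uu, TP_w, TP_uu, by simp [det, uu], by simp [B, uu], h, h1⟩

lemma shift_edge (θ : ℝ) (u : ℤ√2) (hu : TP u) (hn : nm u = 1)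
    (h : ∃ a b : ℤ√2, TP a ∧ TP b ∧ det a b = 1 ∧ B a b = 2 ∧ th a ≤ θ ∧ θ ≤ th b) :
    ∃ a b : ℤ√2, TP a ∧ TP b ∧ det a b = 1 ∧ B a b = 2 ∧ th a ≤ θ + th u ∧ θ + th u ≤ th b := by
  obtain ⟨a, b, ha, hb, h1, h2, h3, h4⟩ := h
  refine ⟨u * a, u * b, hu.mul ha, hu.mul hb, ?_, ?_, ?_, ?_⟩
  · rw [det_mul_left, hn, h1]; norm_num
  · rw [B_mul_left, hn, h2]; norm_num
  · rw [th_mul hu ha]; linarith
  · rw [th_mul hu hb]; linarith

lemma cover_aux (m : ℕ) : ∀ θ : ℝ, |θ| ≤ m * th uu →
    ∃ a b : ℤ√2, TP a ∧ TP b ∧ det a b = 1 ∧ B a b = 2 ∧ th a ≤ θ ∧ θ ≤ th b := by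
  have hT := th_uu_pos
  induction m with
  | zero =>
    intro θ h
    simp only [Nat.cast_zero, zero_mul, abs_nonpos_iff] at h
    subst h
    exact base_edge 0 le_rfl hT.le
  | succ m ih =>
    intro θ h
    push_cast at h
    rw [abs_le] at h
    have hus : nm (star uu) = 1 := by rw [nm_star, nm_uu]
    have hts : th (star uu) = - th uu := th_star uu
    rcases le_or_gt (th uu) θ with h1 | h1
    · have := shift_edge (θ - th uu) uu TP_uu nm_uu
        (ih (θ - th uu) (by
          rw [abs_le]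
          have : (0 : ℝ) ≤ m * th uu := by positivity
          constructor <;> linarith [h.2]))
      simpa using this
    · rcases le_or_gt 0 θ with h2 | h2
      · exact base_edge θ h2 h1.le
      · rcases le_or_gt (- th uu) θ with h3 | h3
        · have := shift_edge (θ + th uu) (star uu) TP_uu.star hus
            (base_edge (θ + th uu) (by linarith) (by linarith))
          rw [hts] at this
          simpa using this
        · have := shift_edge (θ + th uu) (star uu) TP_uu.star hus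
            (ih (θ + th uu) (by
              rw [abs_le]
              have : (0 : ℝ) ≤ m * th uu := by positivity
              constructor <;> linarith [h.1]))
          rw [hts] at this
          simpa using this

lemma cover (θ : ℝ) :
    ∃ a b : ℤ√2, TP a ∧ TP b ∧ det a b = 1 ∧ B a b = 2 ∧ th a ≤ θ ∧ θ ≤ th b := by
  have hT := th_uu_pos
  obtain ⟨m, hm⟩ := exists_nat_ge (|θ| / th uu)
  exact cover_aux m θ (by rwa [div_le_iff₀ hT] at hm)

lemma descend (K : ℤ) (θ : ℝ) (m : ℕ) : ∀ a b : ℤ√2, TP a → TP b → det a b = 1 → th a ≤ θ →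
    θ ≤ th b → B a b ≤ K → K - B a b ≤ m →
    ∃ c d : ℤ√2, TP c ∧ TP d ∧ det c d = 1 ∧ B c d ≤ K ∧ th c ≤ θ ∧ θ ≤ th d ∧
      ((θ ≤ th (c + d) ∧ K < B c (c + d)) ∨ (th (c + d) ≤ θ ∧ K < B (c + d) d)) := by
  induction m with
  | zero =>
    intro a b ha hb h1 h2 h3 h4 h5
    have hBa : B a (a + b) = nm a + B a b := by simp only [B, nm, re_add, im_add]; ring
    have hBb : B (a + b) b = nm b + B a b := by simp only [B, nm, re_add, im_add]; ring
    have := ha.nm_pos
    have := hb.nm_pos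
    refine ⟨a, b, ha, hb, h1, h4, h2, h3, ?_⟩
    push_cast at h5
    rcases le_total θ (th (a + b)) with h | h
    · left; exact ⟨h, by rw [hBa]; omega⟩
    · right; exact ⟨h, by rw [hBb]; omega⟩
  | succ m ih =>
    intro a b ha hb h1 h2 h3 h4 h5
    push_cast at h5
    have hBa : B a (a + b) = nm a + B a b := by simp only [B, nm, re_add, im_add]; ring
    have hBb : B (a + b) b = nm b + B a b := by simp only [B, nm, re_add, im_add]; ring
    have hda : det a (a + b) = 1 := by
      rw [← h1]; simp only [det, re_add, im_add]; ring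
    have hdb : det (a + b) b = 1 := by
      rw [← h1]; simp only [det, re_add, im_add]; ring
    have hna := ha.nm_pos
    have hnb := hb.nm_pos
    rcases le_total θ (th (a + b)) with h | h
    · rcases le_or_gt (B a (a + b)) K with h6 | h6
      · exact ih a (a + b) ha (ha.add hb) hda h2 h h6 (by omega)
      · exact ⟨a, b, ha, hb, h1, h4, h2, h3, Or.inl ⟨h, h6⟩⟩
    · rcases le_or_gt (B (a + b) b) K with h6 | h6
      · exact ih (a + b) b (ha.add hb) hb hdb h h3 h6 (by omega)
      · exact ⟨a, b, ha, hb, h1, h4, h2, h3, Or.inr ⟨h, h6⟩⟩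

lemma locate (K : ℤ) (hK : 2 ≤ K) (θ : ℝ) :
    ∃ c d : ℤ√2, TP c ∧ TP d ∧ det c d = 1 ∧ B c d ≤ K ∧ th c ≤ θ ∧ θ ≤ th d ∧
      ((θ ≤ th (c + d) ∧ K < B c (c + d)) ∨ (th (c + d) ≤ θ ∧ K < B (c + d) d)) := by
  obtain ⟨a, b, ha, hb, h1, h2, h3, h4⟩ := cover θ
  obtain ⟨m, hm⟩ := Int.eq_ofNat_of_zero_le (show 0 ≤ K - 2 by omega)
  exact descend K θ m a b ha hb h1 h3 h4 (by omega) (by rw [h2, hm])

lemma near_of_edge {a b : ℤ√2} (ha : TP a) (hb : TP b) (h : det a b = 1) (θ : ℝ)
    (h1 : th a ≤ θ) (h2 : θ ≤ th b) (K Z : ℤ) (hK : 2 ≤ K) (hKB : K < B a b) (hZ : B a b ≤ Z) :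
    ∃ z, TP z ∧ nm z ≤ Z ∧ |th z - θ| ≤ 5 / (K : ℝ) := by
  have hl := edge_len_le ha hb h
  have hK0 : (0 : ℝ) < K := by exact_mod_cast (by omega : 0 < K)
  have hKB' : (K : ℝ) ≤ B a b := by exact_mod_cast hKB.le
  have h5 : 5 / (B a b : ℝ) ≤ 5 / (K : ℝ) := by gcongr
  have hsq := B_sq a b
  rw [h] at hsq
  have hna := ha.nm_pos
  have hnb := hb.nm_pos
  rcases le_or_gt (nm a) (B a b) with h6 | h6
  · refine ⟨a, ha, by omega, ?_⟩
    rw [abs_le]
    constructor <;> linarith
  · rcases le_or_gt (nm b) (B a b) with h7 | h7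
    · refine ⟨b, hb, by omega, ?_⟩
      rw [abs_le]
      constructor <;> linarith
    · exfalso
      have : B a b * B a b < nm a * nm b := by
        apply mul_lt_mul'' h6 h7 <;> omega
      nlinarith

/-- every angle is close to a totally positive element of norm at most `Z`, or lies within
`5/Z` of an endpoint of an edge of size at most `K`. -/
lemma near_or (K Z : ℤ) (hK : 2 ≤ K) (hKZ : 0 < Z) (θ : ℝ) :
    (∃ z, TP z ∧ nm z ≤ Z ∧ |th z - θ| ≤ 5 / (K : ℝ)) ∨
    (∃ c d : ℤ√2, TP c ∧ TP d ∧ det c d = 1 ∧ B c d ≤ K ∧ th c ≤ θ ∧ θ ≤ th d ∧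
      (|th c - θ| ≤ 5 / (Z : ℝ) ∨ |th d - θ| ≤ 5 / (Z : ℝ))) := by
  obtain ⟨c, d, hc, hd, h1, h2, h3, h4, h5⟩ := locate K hK θ
  have hda : det c (c + d) = 1 := by
    rw [← h1]; simp only [det, re_add, im_add]; ring
  have hdb : det (c + d) d = 1 := by
    rw [← h1]; simp only [det, re_add, im_add]; ring
  have hZ0 : (0 : ℝ) < Z := by exact_mod_cast hKZ
  rcases h5 with ⟨h5, h6⟩ | ⟨h5, h6⟩
  · rcases le_or_gt (B c (c + d)) Z with h7 | h7
    · left
      exact near_of_edge hc (hc.add hd) hda θ h3 h5 K Z hK h6 h7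
    · right
      refine ⟨c, d, hc, hd, h1, h2, h3, h4, Or.inl ?_⟩
      have hl := edge_len_le hc (hc.add hd) hda
      have h7' : (Z : ℝ) ≤ B c (c + d) := by exact_mod_cast h7.le
      have h8 : 5 / (B c (c + d) : ℝ) ≤ 5 / (Z : ℝ) := by gcongr
      rw [abs_le]
      have : 0 < 5 / (Z : ℝ) := by positivity
      constructor <;> linarith
  · rcases le_or_gt (B (c + d) d) Z with h7 | h7
    · left
      exact near_of_edge (hc.add hd) hd hdb θ h5 h4 K Z hK h6 h7
    · right
      refine ⟨c, d, hc, hd, h1, h2, h3, h4, Or.inr ?_⟩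
      have hl := edge_len_le (hc.add hd) hd hdb
      have h7' : (Z : ℝ) ≤ B (c + d) d := by exact_mod_cast h7.le
      have h8 : 5 / (B (c + d) d : ℝ) ≤ 5 / (Z : ℝ) := by gcongr
      rw [abs_le]
      have : 0 < 5 / (Z : ℝ) := by positivity
      constructor <;> linarith

end

end Pool.Agent.Lib.MP_0b748d_nt
end
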