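import Pool.Agent.Lib.MP_0b748d_nt.Core
import Pool.Agent.Lib.MP_0b748d_nt.Cover

set_option autoImplicit false

/-!
# Short chains of small rotations with tiny total angle

Iterated differences of `x ↦ th (x + √2)` are completely monotone, which gives blocks of
`2^k` rotations with total angle `≈ k! / x^(k+1)`; a greedy expansion then approximates any
angle by even multiples of these blocks.
-/

namespace Pool.Agent.Lib.MP_0b748d_nt

open Zsqrtd

noncomputable section

variable {g : ℕ → ℤ}

/-- the element `x + √2` -/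
def tx (x : ℕ) : ℤ√2 := ⟨x, 1⟩

lemma nm_tx (x : ℕ) : nm (tx x) = (x : ℤ) ^ 2 - 2 := by simp [nm, tx]

lemma TP_tx {x : ℕ} (hx : 2 ≤ x) : TP (tx x) := by
  rw [TP_iff, nm_tx]
  have : (2 : ℤ) ≤ x := by exact_mod_cast hx
  constructor
  · simp only [tx]; omega
  · nlinarith

lemma th_tx_le {x : ℕ} (hx : 2 ≤ x) : th (tx x) ≤ 5 / (x : ℝ) := by
  have h := edge_len_le TP_one (TP_tx hx) (by simp [det, tx])
  have hB : B 1 (tx x) = x := by simp [B, tx]
  rw [hB, th_one, sub_zero] at h
  simpa using h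

lemma th_tx_ge {x : ℕ} (hx : 2 ≤ x) : 1 / (2 * (x : ℝ)) ≤ th (tx x) := by
  have h := edge_len_ge TP_one (TP_tx hx) (by simp [det, tx])
  have hB : B 1 (tx x) = x := by simp [B, tx]
  rw [hB, th_one, sub_zero] at h
  simpa using h

/-- difference blocks -/
def blk : ℕ → ℕ → List (ℤ√2)
  | 0, x => [tx x]
  | k + 1, x => blk k x ++ (blk k (x + 1)).map star

/-- total angle of a block -/
def A (k x : ℕ) : ℝ := ((blk k x).map th).sum

lemma sum_map_star (l : List (ℤ√2)) : ((l.map star).map th).sum = - (l.map th).sum := by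
  induction l with
  | nil => simp
  | cons a l ih =>
    simp only [List.map_cons, List.sum_cons, th_star]
    rw [ih]; ring

lemma A_succ (k x : ℕ) : A (k + 1) x = A k x - A k (x + 1) := by
  simp only [A, blk, List.map_append, List.sum_append]
  rw [sum_map_star]
  ring

/-- integrand -/
def phi : ℕ → ℝ → ℝ
  | 0, t => 1 / (2 * t)
  | k + 1, t => phi k t * (k + 1) / (t + k + 1)

lemma phi_pos (k : ℕ) {t : ℝ} (ht : 0 < t) : 0 < phi k t := by
  induction k with
  | zero => simp only [phi]; positivity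
  | succ k ih => simp only [phi]; positivity

lemma phi_shift (k : ℕ) {t : ℝ} (ht : 0 < t) : phi k (t + 1) * (t + k + 1) = phi k t * t := by
  induction k with
  | zero =>
    simp only [phi, Nat.cast_zero]
    field_simp
    ring
  | succ k ih =>
    have h1 : t + k + 1 ≠ 0 := by positivity
    have h2 : t + 1 + k + 1 ≠ 0 := by positivity
    simp only [phi]
    push_cast
    have : phi k t * ((k : ℝ) + 1) / (t + k + 1) * t = (phi k t * t) * ((k : ℝ) + 1) / (t + k + 1) := by
      ring
    rw [this, ← ih]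
    field_simp
    ring

lemma phi_diff (k : ℕ) {t : ℝ} (ht : 0 < t) : phi k t - phi k (t + 1) = phi (k + 1) t := by
  have h := phi_shift k ht
  have h1 : t + k + 1 ≠ 0 := by positivity
  have h2 : phi k (t + 1) = phi k t * t / (t + k + 1) := by
    rw [eq_div_iff h1, h]
  rw [h2]
  simp only [phi]
  field_simp
  ring

lemma phi_le (k : ℕ) {t : ℝ} (ht : 0 < t) : phi k t ≤ k.factorial / (2 * t ^ (k + 1)) := by
  induction k with
  | zero => simp [phi]
  | succ k ih =>
    simp only [phi]
    calc phi k t * ((k : ℝ) + 1) / (t + k + 1)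
        ≤ phi k t * ((k : ℝ) + 1) / t := by
          apply div_le_div_of_nonneg_left _ ht
          · have : (0 : ℝ) ≤ k := by positivity
            linarith
          · have := phi_pos k ht
            positivity
      _ ≤ (k.factorial / (2 * t ^ (k + 1))) * ((k : ℝ) + 1) / t := by gcongr
      _ = _ := by
          rw [Nat.factorial_succ, pow_succ t (k + 1)]
          push_cast
          field_simp

lemma phi_cont (k : ℕ) : ContinuousOn (phi k) (Set.Ioi 0) := by
  induction k with
  | zero =>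
    simp only [phi]
    apply ContinuousOn.div continuousOn_const (by fun_prop)
    intro t ht
    have : (0 : ℝ) < t := ht
    positivity
  | succ k ih =>
    simp only [phi]
    apply ContinuousOn.div (ih.mul continuousOn_const) (by fun_prop)
    intro t ht
    have : (0 : ℝ) < t := ht
    positivity

lemma phi_cont' (k : ℕ) (x : ℝ) (hx : 2 ≤ x) :
    ContinuousOn (fun s => phi k (x + s)) (Set.uIcc (-√2) √2) := by
  apply (phi_cont k).comp (by fun_prop)
  intro s hs
  have h1 := sqrt2_lt
  have h2 := sqrt2_pos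
  rw [Set.uIcc_of_le (by linarith)] at hs
  simp only [Set.mem_Ioi]
  linarith [hs.1]

lemma phi_int (k : ℕ) (x : ℝ) (hx : 2 ≤ x) :
    IntervalIntegrable (fun s => phi k (x + s)) MeasureTheory.volume (-√2) √2 :=
  (phi_cont' k x hx).intervalIntegrable

lemma A_eq (k : ℕ) : ∀ x : ℕ, 2 ≤ x → A k x = ∫ s in (-√2)..√2, phi k (x + s) := by
  induction k with
  | zero =>
    intro x hx
    have hx' : (2 : ℝ) ≤ x := by exact_mod_cast hx
    have h1 := sqrt2_lt
    have h2 := sqrt2_pos
    have hA : A 0 x = (Real.log (x + √2) - Real.log (x - √2)) / 2 := by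
      simp [A, blk, th, s1, s2, tx]
    rw [hA]
    have hint := intervalIntegral.integral_eq_sub_of_hasDerivAt
      (f := fun s => Real.log ((x : ℝ) + s) / 2) (f' := fun s => phi 0 ((x : ℝ) + s))
      (a := -√2) (b := √2) (by
        intro s hs
        rw [Set.uIcc_of_le (by linarith)] at hs
        have hpos : (0 : ℝ) < x + s := by linarith [hs.1]
        have h3 : HasDerivAt (fun s => (x : ℝ) + s) 1 s := by
          simpa using (hasDerivAt_id s).const_add (x : ℝ)
        have h4 := (h3.log hpos.ne').div_const 2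
        simp only [phi]
        convert! h4 using 1
        field_simp) (phi_int 0 x hx')
    rw [hint]
    rw [← sub_eq_add_neg]
    ring
  | succ k ih =>
    intro x hx
    have hx' : (2 : ℝ) ≤ x := by exact_mod_cast hx
    rw [A_succ, ih x hx, ih (x + 1) (by omega)]
    have h3 := phi_int k (x : ℝ) hx'
    have h4 := phi_int k ((x + 1 : ℕ) : ℝ) (by push_cast; linarith)
    rw [← intervalIntegral.integral_sub h3 h4]
    apply intervalIntegral.integral_congr
    intro s hs
    have h1 := sqrt2_lt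
    have h2 := sqrt2_pos
    rw [Set.uIcc_of_le (by linarith)] at hs
    have hpos : (0 : ℝ) < x + s := by linarith [hs.1]
    have h5 := phi_diff k hpos
    beta_reduce
    rw [← h5]
    push_cast
    congr 2
    ring

lemma A_pos (k x : ℕ) (hx : 2 ≤ x) : 0 < A k x := by
  have hx' : (2 : ℝ) ≤ x := by exact_mod_cast hx
  have h1 := sqrt2_lt
  have h2 := sqrt2_pos
  rw [A_eq k x hx]
  apply intervalIntegral.intervalIntegral_pos_of_pos_on (phi_int k x hx') _ (by linarith)
  intro s hs
  apply phi_pos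
  linarith [hs.1]

lemma A_ratio (k x : ℕ) (hx : 2 ≤ x) : A k x ≤ (x + k + 3) * A (k + 1) x := by
  have hx' : (2 : ℝ) ≤ x := by exact_mod_cast hx
  have h1 := sqrt2_lt
  have h2 := sqrt2_pos
  rw [A_eq k x hx, A_eq (k + 1) x hx, ← intervalIntegral.integral_const_mul]
  apply intervalIntegral.integral_mono_on (by linarith) (phi_int k x hx')
    ((phi_int (k + 1) x hx').const_mul _)
  intro s hs
  have hpos : (0 : ℝ) < x + s := by linarith [hs.1]
  have hph := phi_pos k hpos
  have hk : (0 : ℝ) ≤ k := by positivity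
  simp only [phi]
  have hd : (0 : ℝ) < x + s + k + 1 := by linarith
  rw [← mul_div_assoc, le_div_iff₀ hd]
  have h5 : (x : ℝ) + s + k + 1 ≤ (x + k + 3) * (k + 1) := by
    nlinarith [hs.2]
  nlinarith [mul_le_mul_of_nonneg_left h5 hph.le]

lemma A_le (k x : ℕ) (hx : 3 ≤ x) : A k x ≤ 3 / 2 * (k.factorial / ((x : ℝ) - 2) ^ (k + 1)) := by
  have hx' : (3 : ℝ) ≤ x := by exact_mod_cast hx
  have h1 := sqrt2_lt
  have h2 := sqrt2_pos
  rw [A_eq k x (by omega)]
  have h3 : ∫ s in (-√2)..√2, phi k (x + s) ≤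
      ∫ _ in (-√2)..√2, (k.factorial / (2 * ((x : ℝ) - 2) ^ (k + 1)) : ℝ) := by
    apply intervalIntegral.integral_mono_on (by linarith) (phi_int k x (by linarith))
      intervalIntegrable_const
    intro s hs
    have hpos : (0 : ℝ) < x + s := by linarith [hs.1]
    refine (phi_le k hpos).trans ?_
    have h4 : (0 : ℝ) < (x : ℝ) - 2 := by linarith
    gcongr
    linarith [hs.1]
  refine h3.trans ?_
  rw [intervalIntegral.integral_const, smul_eq_mul]
  have h4 : (0 : ℝ) < (x : ℝ) - 2 := by linarith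
  have h5 : (0 : ℝ) ≤ k.factorial / ((x : ℝ) - 2) ^ (k + 1) := by positivity
  have h6 : (k.factorial / (2 * ((x : ℝ) - 2) ^ (k + 1)) : ℝ) =
    (k.factorial / ((x : ℝ) - 2) ^ (k + 1)) / 2 := by
    field_simp
  rw [h6]
  nlinarith

lemma blk_length (k : ℕ) : ∀ x, (blk k x).length = 2 ^ k := by
  induction k with
  | zero => intro x; simp [blk]
  | succ k ih =>
    intro x
    simp only [blk, List.length_append, List.length_map]
    rw [ih, ih, pow_succ]
    ring

lemma blk_mem (k : ℕ) : ∀ x, 2 ≤ x → ∀ ρ ∈ blk k x,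
    TP ρ ∧ nm ρ ≤ ((x + k : ℕ) : ℤ) ^ 2 ∧ |th ρ| ≤ 5 / (x : ℝ) := by
  induction k with
  | zero =>
    intro x hx ρ hρ
    simp only [blk, List.mem_singleton] at hρ
    subst hρ
    refine ⟨TP_tx hx, ?_, ?_⟩
    · rw [nm_tx]; push_cast; rw [add_zero]; omega
    · rw [abs_of_nonneg (le_trans (by positivity) (th_tx_ge hx))]
      exact th_tx_le hx
  | succ k ih =>
    intro x hx ρ hρ
    have hx' : (2 : ℝ) ≤ x := by exact_mod_cast hx
    simp only [blk, List.mem_append, List.mem_map] at hρ
    rcases hρ with hρ | ⟨σ, hσ, rfl⟩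
    · obtain ⟨h1, h2, h3⟩ := ih x hx ρ hρ
      refine ⟨h1, h2.trans ?_, h3⟩
      apply pow_le_pow_left₀ (by positivity)
      push_cast; omega
    · obtain ⟨h1, h2, h3⟩ := ih (x + 1) (by omega) σ hσ
      refine ⟨h1.star, ?_, ?_⟩
      · rw [nm_star]
        refine h2.trans (le_of_eq ?_)
        push_cast; ring
      · rw [th_star, abs_neg]
        refine h3.trans ?_
        push_cast
        gcongr
        linarith

lemma F_star (z : ℤ√2) : F g (star z) = F g z := by
  simp only [F, nm_star]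

lemma prod_F_val (hg : CM g) (l : List (ℤ√2)) (hl : ∀ ρ ∈ l, TP ρ) :
    (l.map (F g)).prod = 1 ∨ (l.map (F g)).prod = -1 := by
  induction l with
  | nil => left; simp
  | cons a l ih =>
    rw [List.map_cons, List.prod_cons]
    rcases ih (fun ρ hρ => hl ρ (by simp [hρ])) with h | h <;>
      rcases F_val hg (hl a (by simp)) with h' | h' <;> rw [h, h'] <;> simp

lemma rep_sum (l : List (ℤ√2)) (n : ℕ) :
    (((List.replicate n l).flatten).map th).sum = n * (l.map th).sum := by
  induction n with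
  | zero => simp
  | succ n ih =>
    rw [List.replicate_succ, List.flatten_cons, List.map_append, List.sum_append, ih]
    push_cast; ring

lemma rep_prod (l : List (ℤ√2)) (n : ℕ) :
    (((List.replicate n l).flatten).map (F g)).prod = (l.map (F g)).prod ^ n := by
  induction n with
  | zero => simp
  | succ n ih =>
    rw [List.replicate_succ, List.flatten_cons, List.map_append, List.prod_append, ih, pow_succ]
    ring

lemma rep_length (l : List (ℤ√2)) (n : ℕ) :
    ((List.replicate n l).flatten).length = n * l.length := by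
  induction n with
  | zero => simp
  | succ n ih =>
    rw [List.replicate_succ, List.flatten_cons, List.length_append, ih]
    ring

lemma rep_mem (l : List (ℤ√2)) (n : ℕ) (ρ : ℤ√2) (h : ρ ∈ (List.replicate n l).flatten) :
    ρ ∈ l := by
  rw [List.mem_flatten] at h
  obtain ⟨l', hl', hρ⟩ := h
  rw [List.eq_of_mem_replicate hl'] at hρ
  exact hρ

/-- one greedy step -/
lemma greedy_step (hg : CM g) (x k : ℕ) (hx : 3 ≤ x) (R : ℝ) (hR : 0 ≤ R) (M : ℝ)
    (hM : R ≤ M * (2 * A k x)) :
    ∃ l : List (ℤ√2), (∀ ρ ∈ l, TP ρ ∧ nm ρ ≤ ((x + k : ℕ) : ℤ) ^ 2 ∧ |th ρ| ≤ 5 / (x : ℝ)) ∧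
      0 ≤ R + (l.map th).sum ∧ R + (l.map th).sum < 2 * A k x ∧
      (l.map (F g)).prod = 1 ∧ (l.length : ℝ) ≤ 2 ^ (k + 1) * M := by
  have hA := A_pos k x (by omega)
  set c : ℕ := ⌊R / (2 * A k x)⌋₊ with hc
  have hc1 : (c : ℝ) ≤ R / (2 * A k x) := Nat.floor_le (by positivity)
  have hc2 : R / (2 * A k x) < c + 1 := Nat.lt_floor_add_one _
  set b : List (ℤ√2) := (blk k x).map star with hb
  have hbs : (b.map th).sum = - A k x := sum_map_star _
  have hbTP : ∀ ρ ∈ b, TP ρ ∧ nm ρ ≤ ((x + k : ℕ) : ℤ) ^ 2 ∧ |th ρ| ≤ 5 / (x : ℝ) := by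
    intro ρ hρ
    rw [hb, List.mem_map] at hρ
    obtain ⟨σ, hσ, rfl⟩ := hρ
    obtain ⟨h1, h2, h3⟩ := blk_mem k x (by omega) σ hσ
    exact ⟨h1.star, by rw [nm_star]; exact h2, by rw [th_star, abs_neg]; exact h3⟩
  refine ⟨(List.replicate (2 * c) b).flatten, ?_, ?_, ?_, ?_, ?_⟩
  · intro ρ hρ
    exact hbTP ρ (rep_mem _ _ _ hρ)
  · rw [rep_sum, hbs]
    rw [le_div_iff₀ (by positivity)] at hc1
    push_cast
    linarith
  · rw [rep_sum, hbs]
    rw [div_lt_iff₀ (by positivity)] at hc2
    push_cast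
    linarith
  · rw [rep_prod, pow_mul]
    rcases prod_F_val hg b (fun ρ hρ => (hbTP ρ hρ).1) with h | h <;> rw [h] <;> simp
  · rw [rep_length, hb, List.length_map, blk_length]
    have : (c : ℝ) ≤ M := hc1.trans (by rwa [div_le_iff₀ (by positivity)])
    push_cast
    rw [pow_succ]
    nlinarith [show (0 : ℝ) < 2 ^ k by positivity]

lemma greedy (hg : CM g) (x : ℕ) (hx : 3 ≤ x) (R : ℝ) (hR : 0 ≤ R) (hR2 : R ≤ 5 / 2) (k : ℕ) :
    ∃ l : List (ℤ√2), (∀ ρ ∈ l, TP ρ ∧ nm ρ ≤ ((x + k : ℕ) : ℤ) ^ 2 ∧ |th ρ| ≤ 5 / (x : ℝ)) ∧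
      0 ≤ R + (l.map th).sum ∧ R + (l.map th).sum < 2 * A k x ∧
      (l.map (F g)).prod = 1 ∧ (l.length : ℝ) ≤ 2 ^ (k + 3) * (x + k + 2) := by
  have hx' : (3 : ℝ) ≤ x := by exact_mod_cast hx
  induction k with
  | zero =>
    have hA0 : A 0 x = th (tx x) := by simp [A, blk]
    have h1 := th_tx_ge (x := x) (by omega)
    obtain ⟨l, h2, h3, h4, h5, h6⟩ := greedy_step hg x 0 hx R hR (5 * x / 2) (by
      rw [hA0]
      have : (5 * x / 2) * (2 * (1 / (2 * (x : ℝ)))) = 5 / 2 := by field_simp
      nlinarith)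
    refine ⟨l, h2, h3, h4, h5, h6.trans ?_⟩
    push_cast
    norm_num
    linarith
  | succ k ih =>
    obtain ⟨l, h2, h3, h4, h5, h6⟩ := ih
    have hr := A_ratio k x (by omega)
    have hA := A_pos (k + 1) x (by omega)
    obtain ⟨l', h2', h3', h4', h5', h6'⟩ := greedy_step hg x (k + 1) hx (R + (l.map th).sum) h3
      (x + k + 3) (by linarith)
    refine ⟨l ++ l', ?_, ?_, ?_, ?_, ?_⟩
    · intro ρ hρ
      rw [List.mem_append] at hρ
      rcases hρ with hρ | hρ
      · obtain ⟨h7, h8, h9⟩ := h2 ρ hρ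
        refine ⟨h7, h8.trans ?_, h9⟩
        apply pow_le_pow_left₀ (by positivity)
        push_cast; omega
      · exact h2' ρ hρ
    · rw [List.map_append, List.sum_append]; linarith
    · rw [List.map_append, List.sum_append]; linarith
    · rw [List.map_append, List.prod_append, h5, h5', one_mul]
    · rw [List.length_append]
      push_cast
      have e1 : (2 : ℝ) ^ (k + 1 + 3) = 2 * 2 ^ (k + 3) := by ring
      have e2 : (2 : ℝ) ^ (k + 1 + 1) = 2 ^ (k + 3) / 2 := by
        rw [show k + 3 = (k + 1 + 1) + 1 by ring, pow_succ (2 : ℝ) (k + 1 + 1)]; ring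
      rw [e2] at h6'
      rw [e1]
      have h7 : (0 : ℝ) < 2 ^ (k + 3) := by positivity
      have hk : (0 : ℝ) ≤ k := by positivity
      nlinarith

/-- the full chain -/
theorem chain (hg : CM g) (x j r : ℕ) (hx : 3 ≤ x) (hj : 2 ≤ j) (hgj : g (j ^ 2 - 2) = -1) :
    ∃ l : List (ℤ√2), (∀ ρ ∈ l, TP ρ ∧ nm ρ ≤ ((max ((x + r) ^ 2) (j ^ 2) : ℕ) : ℤ)) ∧
      (l.map (F g)).prod = -1 ∧
      |(l.map th).sum| ≤ 3 * (r.factorial / ((x : ℝ) - 2) ^ (r + 1)) ∧
      (l.length : ℝ) ≤ 2 ^ (r + 3) * (x + r + 2) + 1 ∧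
      (∀ i ≤ l.length, |((l.take i).map th).sum| ≤ 5 / 2 + 2 ^ (r + 3) * (x + r + 2) * (5 / (x : ℝ))) := by
  have hx' : (3 : ℝ) ≤ x := by exact_mod_cast hx
  have hj' : (2 : ℝ) ≤ j := by exact_mod_cast hj
  have hθ1 := th_tx_ge hj
  have hθ2 := th_tx_le hj
  have hθ0 : 0 ≤ th (tx j) := le_trans (by positivity) hθ1
  have hθ3 : th (tx j) ≤ 5 / 2 := hθ2.trans (by gcongr)
  obtain ⟨l, h1, h2, h3, h4, h5⟩ := greedy hg x hx (th (tx j)) hθ0 hθ3 r
  have hAle := A_le r x hx
  have hFj : F g (tx j) = -1 := by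
    rw [F, nm_tx, ← hgj]
    congr 1
    have : 2 ≤ j ^ 2 := by nlinarith
    zify [this]
    rw [Int.toNat_of_nonneg (by
      have : (2 : ℤ) ≤ (j : ℤ) ^ 2 := by exact_mod_cast this
      omega)]
  refine ⟨tx j :: l, ?_, ?_, ?_, ?_, ?_⟩
  · intro ρ hρ
    rw [List.mem_cons] at hρ
    rcases hρ with rfl | hρ
    · refine ⟨TP_tx hj, ?_⟩
      rw [nm_tx, Nat.cast_max]
      refine le_trans ?_ (le_max_right _ _)
      push_cast; omega
    · refine ⟨(h1 ρ hρ).1, ?_⟩
      rw [Nat.cast_max]
      refine le_trans ?_ (le_max_left _ _)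
      have := (h1 ρ hρ).2.1
      push_cast at this ⊢
      exact this
  · rw [List.map_cons, List.prod_cons, h4, hFj]; norm_num
  · rw [List.map_cons, List.sum_cons, abs_of_nonneg h2]
    linarith
  · rw [List.length_cons]; push_cast; linarith
  · intro i hi
    rcases i with _ | i
    · simp only [List.take_zero, List.map_nil, List.sum_nil, abs_zero]
      positivity
    · rw [List.take_succ_cons, List.map_cons, List.sum_cons]
      refine (abs_add_le _ _).trans ?_
      rw [abs_of_nonneg hθ0]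
      apply add_le_add hθ3
      have h6 : ∀ l' : List (ℤ√2), (∀ ρ ∈ l', |th ρ| ≤ 5 / (x : ℝ)) →
          |(l'.map th).sum| ≤ l'.length * (5 / (x : ℝ)) := by
        intro l'
        induction l' with
        | nil => intro _; simp
        | cons a l' ih =>
          intro h
          rw [List.map_cons, List.sum_cons]
          refine (abs_add_le _ _).trans ?_
          have h7 := ih (fun ρ hρ => h ρ (by simp [hρ]))
          have h8 := h a (by simp)
          rw [List.length_cons]
          push_cast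
          linarith
      refine (h6 (l.take i) (fun ρ hρ => (h1 ρ (List.mem_of_mem_take hρ)).2.2)).trans ?_
      apply mul_le_mul_of_nonneg_right _ (by positivity)
      refine le_trans ?_ h5
      rw [List.length_take]
      exact_mod_cast min_le_right _ _

end

end Pool.Agent.Lib.MP_0b748d_nt
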