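import Pool.Agent.Lib.MP_0b748d_nt.Cover

set_option autoImplicit false

/-!
# The core inequality: rotations of total sign `-1` and tiny total angle force many
`n` with `g (n^2 - 2) = -1`
-/

namespace Pool.Agent.Lib.MP_0b748d_nt

open Zsqrtd MeasureTheory

noncomputable section

/-- completely multiplicative with values `±1` (on positive integers) -/
structure CM (g : ℕ → ℤ) : Prop where
  mul : ∀ m n : ℕ, 0 < m → 0 < n → g (m * n) = g m * g n
  val : ∀ m : ℕ, 0 < m → g m = 1 ∨ g m = -1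

/-- the sign of a totally positive element -/
def F (g : ℕ → ℤ) (z : ℤ√2) : ℤ := g (nm z).toNat

variable {g : ℕ → ℤ}

lemma F_val (hg : CM g) {z : ℤ√2} (hz : TP z) : F g z = 1 ∨ F g z = -1 :=
  hg.val _ (by have := hz.nm_pos; omega)

lemma F_mul (hg : CM g) {z w : ℤ√2} (hz : TP z) (hw : TP w) : F g (z * w) = F g z * F g w := by
  have h1 := hz.nm_pos
  have h2 := hw.nm_pos
  rw [F, nm_mul, Int.toNat_mul h1.le h2.le]
  exact hg.mul _ _ (by omega) (by omega)

lemma F_edge (hg : CM g) {a b : ℤ√2} (ha : TP a) (hb : TP b) (h : det a b = 1) :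
    F g a * F g b = g ((B a b).toNat ^ 2 - 2) := by
  have h1 := ha.nm_pos
  have h2 := hb.nm_pos
  rw [F, F, ← hg.mul _ _ (by omega) (by omega), ← Int.toNat_mul h1.le h2.le, B_sq, h]
  have h3 := B_edge_ge ha hb h
  congr 1
  have h4 : ((B a b).toNat : ℤ) = B a b := Int.toNat_of_nonneg (by omega)
  have h5 : 2 ≤ (B a b).toNat := by omega
  have h6 : 2 ≤ (B a b).toNat ^ 2 := by nlinarith
  zify [h6]
  rw [h4, Int.toNat_of_nonneg (by nlinarith)]
  ring

lemma prim_part (hg : CM g) {z : ℤ√2} (hz : TP z) :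
    ∃ v, Prim v ∧ TP v ∧ th v = th z ∧ nm v ≤ nm z ∧ F g v = F g z := by
  have hre := hz.re_pos
  have hgcd : 0 < Int.gcd z.re z.im := Int.gcd_pos_of_ne_zero_left _ hre.ne'
  set m : ℕ := Int.gcd z.re z.im with hm
  obtain ⟨x, y, hx1, hx2, hx3⟩ : ∃ x y : ℤ, IsCoprime x y ∧ z.re = m * x ∧ z.im = m * y := by
    obtain ⟨x, y, h1, h2, h3⟩ := Int.exists_gcd_one hgcd
    exact ⟨x, y, Int.isCoprime_iff_gcd_eq_one.2 h1, by rw [h2, mul_comm], by rw [h3, mul_comm]⟩
  set v : ℤ√2 := ⟨x, y⟩ with hv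
  have hmR : (0 : ℝ) < m := by exact_mod_cast hgcd
  have hs1 : s1 z = m * s1 v := by
    simp only [s1, hx2, hx3, hv]; push_cast; ring
  have hs2 : s2 z = m * s2 v := by
    simp only [s2, hx2, hx3, hv]; push_cast; ring
  have hvT : TP v := by
    constructor
    · have := hz.1
      rw [hs1] at this
      exact (mul_pos_iff_of_pos_left hmR).1 this
    · have := hz.2
      rw [hs2] at this
      exact (mul_pos_iff_of_pos_left hmR).1 this
  have hnm : nm z = (m : ℤ) ^ 2 * nm v := by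
    simp only [nm, hx2, hx3, hv]; ring
  have hvn := hvT.nm_pos
  have hmZ : (1 : ℤ) ≤ m := by exact_mod_cast hgcd
  refine ⟨v, hx1, hvT, ?_, ?_, ?_⟩
  · simp only [th]
    rw [hs1, hs2, Real.log_mul hmR.ne' hvT.1.ne', Real.log_mul hmR.ne' hvT.2.ne']
    ring
  · rw [hnm]
    have : (1 : ℤ) ≤ (m : ℤ) ^ 2 := by nlinarith
    nlinarith
  · rw [F, F, hnm, Int.toNat_mul (by positivity) hvn.le]
    have h1 : ((m : ℤ) ^ 2).toNat = m * m := by
      have : (m : ℤ) ^ 2 = ((m * m : ℕ) : ℤ) := by push_cast; ring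
      rw [this, Int.toNat_natCast]
    rw [h1, hg.mul _ _ (by positivity) (by omega), hg.mul _ _ hgcd hgcd]
    rcases hg.val m hgcd with h | h <;> rw [h] <;> ring

lemma B_le {v w : ℤ√2} (hv : TP v) (hw : TP w) (H : ℤ) (h1 : nm v ≤ H) (h2 : nm w ≤ H)
    (hth : |th w - th v| ≤ 1 / 2) : B v w ≤ 2 * H := by
  have c1 := cross1 v w
  have c2 := cross2 v w
  set P := s1 v * s2 w with hP
  set Q := s1 w * s2 v with hQ
  have hPpos : 0 < P := mul_pos hv.1 hw.2
  have hQpos : 0 < Q := mul_pos hw.1 hv.2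
  have hPQ : P * Q = nm v * nm w := by
    rw [hP, hQ, ← s1_mul_s2, ← s1_mul_s2]; ring
  have hlog := th_sub hv hw
  rw [← hP, ← hQ] at hlog
  have hHpos : (0 : ℝ) < H := by exact_mod_cast lt_of_lt_of_le hv.nm_pos h1
  have h1' : (nm v : ℝ) ≤ H := by exact_mod_cast h1
  have h2' : (nm w : ℝ) ≤ H := by exact_mod_cast h2
  have hv0 : (0 : ℝ) < nm v := by exact_mod_cast hv.nm_pos
  have hw0 : (0 : ℝ) < nm w := by exact_mod_cast hw.nm_pos
  have hle : P * Q ≤ H * H := by
    rw [hPQ]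
    exact mul_le_mul h1' h2' hw0.le hHpos.le
  have he := Real.exp_one_lt_d9
  rw [hlog, abs_le] at hth
  have hr1 : Q / P ≤ 4 := by
    have : Real.log (Q / P) ≤ 1 := by linarith [hth.2]
    rw [Real.log_le_iff_le_exp (by positivity)] at this
    linarith
  have hr2 : P / Q ≤ 4 := by
    have : Real.log (P / Q) ≤ 1 := by
      rw [← inv_div, Real.log_inv]
      linarith [hth.1]
    rw [Real.log_le_iff_le_exp (by positivity)] at this
    linarith
  rw [div_le_iff₀ hPpos] at hr1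
  rw [div_le_iff₀ hQpos] at hr2
  have hQ2 : Q ≤ 2 * H := by
    by_contra hc
    push Not at hc
    nlinarith
  have hP2 : P ≤ 2 * H := by
    by_contra hc
    push Not at hc
    nlinarith
  have : (B v w : ℝ) ≤ 2 * H := by linarith
  exact_mod_cast this

/-- all elements of norm `≤ H` near `θ` have the same sign, if no bad edge is near `θ`. -/
lemma same_F (hg : CM g) (Y N H : ℕ) (hY : 1 ≤ Y) (hH : 2 * H ≤ N) (θ : ℝ)
    (hno : ∀ a b, TP a → TP b → det a b = 1 → (Y : ℤ) ≤ B a b → B a b ≤ N →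
      g ((B a b).toNat ^ 2 - 2) = -1 → ¬ |th a - θ| ≤ 1 / (4 * Y : ℝ))
    (v w : ℤ√2) (hv : TP v) (hw : TP w) (hnv : nm v ≤ H) (hnw : nm w ≤ H)
    (hvθ : |th v - θ| ≤ 1 / (4 * Y : ℝ)) (hwθ : |th w - θ| ≤ 1 / (4 * Y : ℝ)) :
    F g v = F g w := by
  obtain ⟨v', pv, tv, hv1, hv2, hv3⟩ := prim_part hg hv
  obtain ⟨w', pw, tw, hw1, hw2, hw3⟩ := prim_part hg hw
  rw [← hv3, ← hw3]
  rw [← hv1] at hvθ
  rw [← hw1] at hwθ
  have hYR : (1 : ℝ) ≤ Y := by exact_mod_cast hY
  have hη : 1 / (4 * Y : ℝ) ≤ 1 / 4 := by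
    apply one_div_le_one_div_of_le (by norm_num); linarith
  rw [abs_le] at hvθ hwθ
  apply hull (F g) N (θ - 1 / (4 * Y : ℝ)) (θ + 1 / (4 * Y : ℝ)) _ v' w' tv tw pv pw
    (by linarith) (by linarith) (by linarith) (by linarith) (by omega) (by omega)
  · have : B v' w' ≤ 2 * H := B_le tv tw H (by omega) (by omega) (by
      rw [abs_le]; constructor <;> linarith)
    omega
  · intro a b ha hb hd hlo hhi hB
    by_contra hne
    have h1 := F_edge hg ha hb hd
    have h2 : F g a * F g b = -1 := by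
      rcases F_val hg ha with h | h <;> rcases F_val hg hb with h' | h'
      · exact absurd (h.trans h'.symm) hne
      · rw [h, h']; rfl
      · rw [h, h']; rfl
      · exact absurd (h.trans h'.symm) hne
    rw [h2] at h1
    have hlen := edge_len_ge ha hb hd
    have hBge := B_edge_ge ha hb hd
    have hBR : (0 : ℝ) < B a b := by exact_mod_cast (by omega : 0 < B a b)
    have hab := (th_lt_iff ha hb).2 (by rw [hd]; exact one_pos)
    refine hno a b ha hb hd ?_ hB h1.symm ?_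
    · have h3 : 1 / (2 * (B a b : ℝ)) ≤ 1 / (2 * (Y : ℝ)) := by
        have : 1 / (2 * (Y : ℝ)) = 1 / (4 * Y : ℝ) + 1 / (4 * Y : ℝ) := by
          field_simp; norm_num
        linarith
      rw [one_div_le_one_div (by positivity) (by positivity)] at h3
      have : (Y : ℝ) ≤ B a b := by linarith
      exact_mod_cast this
    · rw [abs_le]; constructor <;> linarith

/-- good angles -/
def Good (g : ℕ → ℤ) (Y H Z : ℕ) (θ : ℝ) : Prop :=
  (∀ v w, TP v → TP w → nm v ≤ H → nm w ≤ H → |th v - θ| ≤ 1 / (4 * Y : ℝ) →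
    |th w - θ| ≤ 1 / (4 * Y : ℝ) → F g v = F g w) ∧
  (∃ z, TP z ∧ nm z ≤ Z ∧ |th z - θ| ≤ 1 / (8 * Y : ℝ))

lemma chain_aux (hg : CM g) (Y H Z q : ℕ) (hY : 1 ≤ Y) (hq : 1 ≤ q) (hqZ : q * Z ≤ H)
    (l : List (ℤ√2)) :
    (∀ ρ ∈ l, TP ρ ∧ nm ρ ≤ q) → ∀ θ : ℝ,
    (∀ i ≤ l.length, Good g Y H Z (θ + ((l.take i).map th).sum)) →
    ∀ z z', TP z → nm z ≤ Z → |th z - θ| ≤ 1 / (8 * Y : ℝ) → TP z' → nm z' ≤ Z →
      |th z' - (θ + (l.map th).sum)| ≤ 1 / (4 * Y : ℝ) → F g z' = (l.map (F g)).prod * F g z := by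
  have hYR : (1 : ℝ) ≤ Y := by exact_mod_cast hY
  have hη : 1 / (8 * Y : ℝ) ≤ 1 / (4 * Y : ℝ) := by
    apply one_div_le_one_div_of_le (by positivity); linarith
  have hZH : Z ≤ H := le_trans (by nlinarith) hqZ
  induction l with
  | nil =>
    intro _ θ hG z z' hz hnz hzθ hz' hnz' hzθ'
    have h0 := hG 0 le_rfl
    simp only [List.take_nil, List.map_nil, List.sum_nil, add_zero] at h0 hzθ'
    simp only [List.map_nil, List.prod_nil, one_mul]
    exact h0.1 z' z hz' hz (by omega) (by omega) hzθ' (hzθ.trans hη)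
  | cons ρ l ih =>
    intro hl θ hG z z' hz hnz hzθ hz' hnz' hzθ'
    obtain ⟨hρ, hnρ⟩ := hl ρ (by simp)
    have hG1 := hG 1 (by simp)
    simp only [List.take_succ_cons, List.take_zero, List.map_cons, List.map_nil, List.sum_cons,
      List.sum_nil, add_zero] at hG1
    obtain ⟨z'', hz'', hnz'', hzθ''⟩ := hG1.2
    have h1 := ih (fun σ hσ => hl σ (by simp [hσ])) (θ + th ρ) (by
      intro i hi
      have := hG (i + 1) (by simpa using hi)
      simp only [List.take_succ_cons, List.map_cons, List.sum_cons] at this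
      rwa [← add_assoc] at this) z'' z' hz'' hnz'' hzθ'' hz' hnz' (by
      simp only [List.map_cons, List.sum_cons] at hzθ'
      rwa [← add_assoc] at hzθ')
    have h2 : F g z'' = F g (ρ * z) := by
      apply hG1.1 z'' (ρ * z) hz'' (hρ.mul hz) (by omega) _ (hzθ''.trans hη)
      · rw [th_mul hρ hz]
        refine le_trans (le_of_eq ?_) (hzθ.trans hη)
        congr 1; ring
      · rw [nm_mul]
        have hz0 := hz.nm_pos
        have hρ0 := hρ.nm_pos
        calc nm ρ * nm z ≤ (q : ℤ) * Z := mul_le_mul hnρ hnz hz0.le (by positivity)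
          _ ≤ H := by exact_mod_cast hqZ
    rw [h1, h2, F_mul hg hρ hz, List.map_cons, List.prod_cons]
    ring

/-- there is no good chain of total sign `-1` and tiny total angle -/
lemma no_chain (hg : CM g) (Y H Z q : ℕ) (hY : 1 ≤ Y) (hq : 1 ≤ q) (hqZ : q * Z ≤ H)
    (l : List (ℤ√2)) (hl : ∀ ρ ∈ l, TP ρ ∧ nm ρ ≤ q) (hprod : (l.map (F g)).prod = -1)
    (hsum : |(l.map th).sum| ≤ 1 / (8 * Y : ℝ)) (θ : ℝ) :
    ¬ (∀ i ≤ l.length, Good g Y H Z (θ + ((l.take i).map th).sum)) := by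
  intro hG
  have h0 := hG 0 (Nat.zero_le _)
  simp only [List.take_zero, List.map_nil, List.sum_nil, add_zero] at h0
  obtain ⟨z, hz, hnz, hzθ⟩ := h0.2
  have hYR : (1 : ℝ) ≤ Y := by exact_mod_cast hY
  have h1 := chain_aux hg Y H Z q hY hq hqZ l hl θ hG z z hz hnz hzθ hz hnz (by
    have h2 : 1 / (4 * Y : ℝ) = 1 / (8 * Y : ℝ) + 1 / (8 * Y : ℝ) := by
      field_simp; norm_num
    rw [h2, abs_le]
    rw [abs_le] at hzθ hsum
    constructor <;> linarith [hzθ.1, hzθ.2, hsum.1, hsum.2])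
  rw [hprod] at h1
  rcases F_val hg hz with h | h <;> rw [h] at h1 <;> omega

end

end Pool.Agent.Lib.MP_0b748d_nt
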