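import Pool.Agent.Lib.MP_0b748d_nt.Basic

set_option autoImplicit false

/-!
# Counting Farey edges of given size in a window
-/

namespace Pool.Agent.Lib.MP_0b748d_nt

open Zsqrtd

noncomputable section

lemma unit_eq_one {u : ℤ√2} (hu : TP u) (hn : nm u = 1) (h : |th u| < 1) : u = 1 := by
  have h12 : s1 u * s2 u = 1 := by rw [s1_mul_s2, hn]; norm_num
  have hlog : Real.log (s2 u) = - Real.log (s1 u) := by
    have h3 : Real.log (s1 u) + Real.log (s2 u) = 0 := by
      rw [← Real.log_mul hu.1.ne' hu.2.ne', h12, Real.log_one]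
    linarith
  have hth : th u = Real.log (s1 u) := by
    simp only [th]; rw [hlog]; ring
  have he := Real.exp_one_lt_d9
  have hs' := lt_sqrt2
  have hp := hu.re_pos
  simp only [nm] at hn
  have hq : u.im = 0 := by
    by_contra hq
    have hp2 : 2 ≤ u.re := by
      by_contra hc
      push Not at hc
      have h5 : u.re = 1 := by omega
      rw [h5] at hn
      have : 0 < u.im ^ 2 := by positivity
      omega
    have hp2' : (2 : ℝ) ≤ u.re := by exact_mod_cast hp2
    rw [abs_lt] at h
    rcases lt_or_gt_of_ne hq with h5 | h5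
    · have h6 : (u.im : ℝ) ≤ -1 := by exact_mod_cast (by omega : u.im ≤ -1)
      have h7 : Real.exp 1 < s2 u := by
        simp only [s2]
        nlinarith
      have h8 : 1 < Real.log (s2 u) := by
        rw [← Real.log_exp 1]
        exact Real.log_lt_log (Real.exp_pos 1) h7
      linarith [h.1]
    · have h6 : (1 : ℝ) ≤ u.im := by exact_mod_cast (by omega : 1 ≤ u.im)
      have h7 : Real.exp 1 < s1 u := by
        simp only [s1]
        nlinarith
      have h8 : 1 < Real.log (s1 u) := by
        rw [← Real.log_exp 1]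
        exact Real.log_lt_log (Real.exp_pos 1) h7
      linarith [h.2]
  rw [hq] at hn
  have hre : u.re = 1 := by nlinarith
  ext
  · simpa using hre
  · simpa using hq

/-- edges of size `n` with `|th a| ≤ W` -/
def E (W n : ℕ) : Set (ℤ√2 × ℤ√2) :=
  {e | TP e.1 ∧ TP e.2 ∧ det e.1 e.2 = 1 ∧ B e.1 e.2 = n ∧ |th e.1| ≤ W}

lemma edge_mul {a b : ℤ√2} (h : det a b = 1) :
    a.re + B a b * a.im = nm a * b.im ∧ B a b * a.re + 2 * a.im = nm a * b.re := by
  simp only [det] at h
  constructor
  · simp only [B, nm]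
    linear_combination (-a.re) * h
  · simp only [B, nm]
    linear_combination (-2 * a.im) * h

lemma edge_inj {a b a' b' : ℤ√2} (ha : TP a) (ha' : TP a')
    (h : det a b = 1) (h' : det a' b' = 1) (hB : B a b = B a' b') (hn : nm a = nm a')
    (hth : |th a' - th a| < 1) : a = a' ∧ b = b' := by
  obtain ⟨e1, e2⟩ := edge_mul h
  obtain ⟨e1', e2'⟩ := edge_mul h'
  rw [← hB, ← hn] at e1' e2'
  set k := nm a with hk
  set n := B a b with hn'
  have hkpos : 0 < k := ha.nm_pos
  set u : ℤ√2 := ⟨a'.re * b.im - a.im * b'.re, a'.im * b.im - a.im * b'.im⟩ with hu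
  have hmul_re : (a' * star a).re = k * u.re := by
    simp only [re_mul, re_star, im_star, hu]
    linear_combination a'.re * e1 - a.im * e2'
  have hmul_im : (a' * star a).im = k * u.im := by
    simp only [im_mul, re_star, im_star, hu]
    linear_combination a'.im * e1 - a.im * e1'
  have hnu : nm u = 1 := by
    have h1 : nm (a' * star a) = k ^ 2 * nm u := by
      have : nm (a' * star a) = (a' * star a).re ^ 2 - 2 * (a' * star a).im ^ 2 := rfl
      rw [this, hmul_re, hmul_im]
      simp only [nm]; ring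
    rw [nm_mul, nm_star, ← hn, ← hk] at h1
    have : k ^ 2 * (nm u - 1) = 0 := by linear_combination -h1
    rcases mul_eq_zero.1 this with h2 | h2
    · have : 0 < k ^ 2 := by positivity
      omega
    · omega
  have hkR : (0 : ℝ) < k := by exact_mod_cast hkpos
  have hT := ha'.mul ha.star
  have hs1 : s1 (a' * star a) = k * s1 u := by
    simp only [s1, hmul_re, hmul_im]; push_cast; ring
  have hs2 : s2 (a' * star a) = k * s2 u := by
    simp only [s2, hmul_re, hmul_im]; push_cast; ring
  have hTu : TP u := by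
    constructor
    · have := hT.1
      rw [hs1] at this
      exact (mul_pos_iff_of_pos_left hkR).1 this
    · have := hT.2
      rw [hs2] at this
      exact (mul_pos_iff_of_pos_left hkR).1 this
  have hthu : th u = th a' - th a := by
    have h1 : th (a' * star a) = th u := by
      simp only [th]
      rw [hs1, hs2, Real.log_mul hkR.ne' hTu.1.ne', Real.log_mul hkR.ne' hTu.2.ne']
      ring
    rw [← h1, th_mul ha' ha.star, th_star]
    ring
  have hu1 : u = 1 := unit_eq_one hTu hnu (by rw [hthu]; exact hth)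
  have hure : u.re = 1 := by rw [hu1]; rfl
  have huim : u.im = 0 := by rw [hu1]; rfl
  rw [hure] at hmul_re
  rw [huim] at hmul_im
  simp only [re_mul, im_mul, re_star, im_star] at hmul_re hmul_im
  have hna : a.re ^ 2 - 2 * a.im ^ 2 = k := rfl
  have hae : a = a' := by
    have h1 : k * a'.re = k * a.re := by
      linear_combination a.re * hmul_re + 2 * a.im * hmul_im - a'.re * hna
    have h2 : k * a'.im = k * a.im := by
      linear_combination a.im * hmul_re + a.re * hmul_im - a'.im * hna
    ext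
    · exact (mul_left_cancel₀ hkpos.ne' h1).symm
    · exact (mul_left_cancel₀ hkpos.ne' h2).symm
  refine ⟨hae, ?_⟩
  rw [← hae] at e1' e2'
  ext
  · exact mul_left_cancel₀ hkpos.ne' (e2.symm.trans e2')
  · exact mul_left_cancel₀ hkpos.ne' (e1.symm.trans e1')

/-- the coding map for edges -/
def code (e : ℤ√2 × ℤ√2) : ℕ × ℤ := ((nm e.1).toNat, ⌊th e.1⌋)

lemma code_inj (W n : ℕ) : Set.InjOn code (E W n) := by
  rintro ⟨a, b⟩ ⟨ha, hb, h1, h2, h3⟩ ⟨a', b'⟩ ⟨ha', hb', h1', h2', h3'⟩ h
  simp only [code, Prod.mk.injEq] at *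
  obtain ⟨h4, h5⟩ := h
  have h6 : nm a = nm a' := by
    have := ha.nm_pos
    have := ha'.nm_pos
    omega
  have h7 : |th a' - th a| < 1 := by
    have := Int.floor_le (th a)
    have := Int.lt_floor_add_one (th a)
    have := Int.floor_le (th a')
    have := Int.lt_floor_add_one (th a')
    rw [← h5] at *
    rw [abs_lt]
    constructor <;> linarith
  exact edge_inj ha ha' h1 h1' (h2.trans h2'.symm) h6 h7

lemma code_maps (W n : ℕ) : Set.MapsTo code (E W n)
    (((n ^ 2 - 2).divisors ×ˢ Finset.Icc (-(W : ℤ)) W : Finset (ℕ × ℤ)) : Set (ℕ × ℤ)) := by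
  rintro ⟨a, b⟩ ⟨ha, hb, h1, h2, h3⟩
  simp only at ha hb h1 h2 h3
  have h4 := B_sq a b
  rw [h1, h2] at h4
  have h5 := B_edge_ge ha hb h1
  rw [h2] at h5
  have hn2 : 2 ≤ n := by exact_mod_cast h5
  have hn4 : 4 ≤ n ^ 2 := by nlinarith
  simp only [code, Finset.coe_product, Set.mem_prod, Finset.mem_coe, Nat.mem_divisors,
    Finset.mem_Icc]
  have hna := ha.nm_pos
  refine ⟨⟨?_, by omega⟩, ?_, ?_⟩
  · zify [show 2 ≤ n ^ 2 by omega]
    rw [Int.toNat_of_nonneg hna.le]
    exact ⟨nm b, by linarith⟩
  · rw [abs_le] at h3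
    apply Int.le_floor.2
    push_cast
    linarith [h3.1]
  · rw [abs_le] at h3
    have h6 : (⌊th a⌋ : ℝ) ≤ W := (Int.floor_le _).trans h3.2
    exact_mod_cast h6

lemma E_finite (W n : ℕ) : (E W n).Finite :=
  Set.Finite.of_injOn (code_maps W n) (code_inj W n) (Finset.finite_toSet _)

/-- the finite set of edges of size `n` in the window -/
def EF (W n : ℕ) : Finset (ℤ√2 × ℤ√2) := (E_finite W n).toFinset

lemma mem_EF {W n : ℕ} {e : ℤ√2 × ℤ√2} : e ∈ EF W n ↔
    TP e.1 ∧ TP e.2 ∧ det e.1 e.2 = 1 ∧ B e.1 e.2 = n ∧ |th e.1| ≤ W := by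
  simp only [EF, Set.Finite.mem_toFinset]
  rfl

lemma EF_card (W n : ℕ) : (EF W n).card ≤ (n ^ 2 - 2).divisors.card * (2 * W + 1) := by
  have h : (EF W n).card ≤ ((n ^ 2 - 2).divisors ×ˢ Finset.Icc (-(W : ℤ)) W).card := by
    apply Finset.card_le_card_of_injOn code
    · intro e he
      exact code_maps W n (by simpa [EF] using he)
    · intro e he e' he'
      exact code_inj W n (by simpa [EF] using he) (by simpa [EF] using he')
  refine h.trans ?_
  rw [Finset.card_product, Int.card_Icc]
  apply Nat.mul_le_mul_left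
  omega

end

end Pool.Agent.Lib.MP_0b748d_nt
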