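import Pool.Agent.Lib.MP_0b748d_nt.Core
import Pool.Agent.Lib.MP_0b748d_nt.Count
import Pool.Agent.Lib.MP_0b748d_nt.Cover

set_option autoImplicit false

/-!
# Union bound over the starting angle
-/

namespace Pool.Agent.Lib.MP_0b748d_nt

open Zsqrtd MeasureTheory

noncomputable section

variable {g : ℕ → ℤ}

lemma vol_biUnion_le {ι : Type*} (s : Finset ι) (f : ι → Set ℝ) (r : ℝ)
    (h : ∀ i ∈ s, volume (f i) ≤ ENNReal.ofReal r) :
    volume (⋃ i ∈ s, f i) ≤ ENNReal.ofReal (s.card * r) := by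
  refine (measure_biUnion_finset_le s f).trans ?_
  refine (Finset.sum_le_card_nsmul s _ _ h).trans ?_
  rw [nsmul_eq_mul, ENNReal.ofReal_mul (by positivity), ENNReal.ofReal_natCast]

lemma vol_Icc (x r : ℝ) : volume (Set.Icc (x - r) (x + r)) ≤ ENNReal.ofReal (2 * r) := by
  rw [Real.volume_Icc]
  apply le_of_eq
  congr 1
  ring

/-- the set of `n ∈ [2, N]` with `g (n^2 - 2) = -1` -/
def SN (g : ℕ → ℤ) (N : ℕ) : Finset ℕ :=
  (Finset.range (N + 1)).filter (fun n => 2 ≤ n ∧ g (n ^ 2 - 2) = -1)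

def Bad1 (g : ℕ → ℤ) (W Y N : ℕ) : Set ℝ :=
  ⋃ n ∈ SN g N, ⋃ e ∈ EF W n, Set.Icc (th e.1 - 1 / (4 * Y : ℝ)) (th e.1 + 1 / (4 * Y : ℝ))

def Bad2 (W K Z : ℕ) : Set ℝ :=
  ⋃ n ∈ Finset.range (K + 1), ⋃ e ∈ EF W n,
    (Set.Icc (th e.1 - 5 / (Z : ℝ)) (th e.1 + 5 / (Z : ℝ)) ∪
      Set.Icc (th e.2 - 5 / (Z : ℝ)) (th e.2 + 5 / (Z : ℝ)))

/-- double union bound -/
lemma vol_double_le (s : Finset ℕ) (W : ℕ) (f : ℤ√2 × ℤ√2 → Set ℝ) (r : ℝ) (hr : 0 ≤ r)
    (h : ∀ e, volume (f e) ≤ ENNReal.ofReal r) :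
    volume (⋃ n ∈ s, ⋃ e ∈ EF W n, f e) ≤
      ENNReal.ofReal ((∑ n ∈ s, ((EF W n).card : ℝ)) * r) := by
  refine (measure_biUnion_finset_le s _).trans ?_
  rw [Finset.sum_mul, ENNReal.ofReal_sum_of_nonneg (fun n _ => by positivity)]
  exact Finset.sum_le_sum (fun n _ => vol_biUnion_le (EF W n) f r (fun e _ => h e))

lemma vol_Bad1 (W Y N : ℕ) :
    volume (Bad1 g W Y N) ≤
      ENNReal.ofReal ((∑ n ∈ SN g N, ((EF W n).card : ℝ)) * (2 * (1 / (4 * Y : ℝ)))) := by
  apply vol_double_le _ _ _ _ (by positivity)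
  intro e
  exact vol_Icc _ _

lemma vol_Bad2 (W K Z : ℕ) :
    volume (Bad2 W K Z) ≤
      ENNReal.ofReal ((∑ n ∈ Finset.range (K + 1), ((EF W n).card : ℝ)) * (20 / (Z : ℝ))) := by
  apply vol_double_le (Finset.range (K + 1)) W (fun e =>
    (Set.Icc (th e.1 - 5 / (Z : ℝ)) (th e.1 + 5 / (Z : ℝ)) ∪
      Set.Icc (th e.2 - 5 / (Z : ℝ)) (th e.2 + 5 / (Z : ℝ)))) _ (by positivity)
  intro e
  refine (measure_union_le _ _).trans ?_
  refine (add_le_add (vol_Icc _ _) (vol_Icc _ _)).trans ?_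
  rw [← ENNReal.ofReal_add (by positivity) (by positivity)]
  apply le_of_eq
  congr 1
  ring

lemma good_of_not_bad (hg : CM g) (Y N Z H K W : ℕ) (hY : 1 ≤ Y) (hZ : 1 ≤ Z)
    (hH : 2 * H ≤ N) (hK : 40 * Y ≤ K) (θ : ℝ) (hθ : |θ| + 3 ≤ W)
    (h1 : θ ∉ Bad1 g W Y N) (h2 : θ ∉ Bad2 W K Z) : Good g Y H Z θ := by
  have hYR : (1 : ℝ) ≤ Y := by exact_mod_cast hY
  constructor
  · intro v w hv hw hnv hnw hvθ hwθ
    apply same_F hg Y N H hY hH θ _ v w hv hw hnv hnw hvθ hwθ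
    intro a b ha hb hd hYB hBN hgB hclose
    apply h1
    have hB2 := B_edge_ge ha hb hd
    simp only [Bad1, Set.mem_iUnion]
    refine ⟨(B a b).toNat, ?_, (a, b), ?_, ?_⟩
    · simp only [SN, Finset.mem_filter, Finset.mem_range]
      refine ⟨by omega, by omega, hgB⟩
    · rw [mem_EF]
      refine ⟨ha, hb, hd, by simp only; omega, ?_⟩
      simp only
      have h3 : 1 / (4 * Y : ℝ) ≤ 1 := by
        rw [div_le_one (by positivity)]; linarith
      rw [abs_le] at hclose ⊢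
      have := abs_le.1 (show |θ| ≤ W - 3 by linarith)
      constructor <;> linarith [this.1, this.2, hclose.1, hclose.2]
    · rw [Set.mem_Icc]
      rw [abs_le] at hclose
      constructor <;> linarith [hclose.1, hclose.2]
  · rcases near_or K Z (by omega) (by omega) θ with ⟨z, hz, hnz, hzθ⟩ | h
    · refine ⟨z, hz, hnz, hzθ.trans ?_⟩
      have hK' : (40 * Y : ℝ) ≤ K := by exact_mod_cast hK
      push_cast
      rw [div_le_div_iff₀ (by linarith) (by positivity)]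
      linarith
    · exfalso
      obtain ⟨c, d, hc, hd, hdet, hB, hcθ, hθd, h⟩ := h
      apply h2
      have hB2 := B_edge_ge hc hd hdet
      have hlen := edge_len_le hc hd hdet
      have hlen2 : 5 / (B c d : ℝ) ≤ 5 / 2 := by
        have : (2 : ℝ) ≤ B c d := by exact_mod_cast hB2
        gcongr
      simp only [Bad2, Set.mem_iUnion]
      refine ⟨(B c d).toNat, ?_, (c, d), ?_, ?_⟩
      · simp only [Finset.mem_range]; omega
      · rw [mem_EF]
        refine ⟨hc, hd, hdet, by simp only; omega, ?_⟩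
        simp only
        have := abs_le.1 (show |θ| ≤ W - 3 by linarith)
        rw [abs_le]
        constructor <;> linarith [this.1, this.2]
      · simp only
        push_cast at h
        rcases h with h | h
        · left
          rw [Set.mem_Icc]
          rw [abs_le] at h
          constructor <;> linarith [h.1, h.2]
        · right
          rw [Set.mem_Icc]
          rw [abs_le] at h
          constructor <;> linarith [h.1, h.2]

theorem core (hg : CM g) (Y N Z H q K W : ℕ) (l : List (ℤ√2))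
    (hl : ∀ ρ ∈ l, TP ρ ∧ nm ρ ≤ q) (hprod : (l.map (F g)).prod = -1)
    (hsum : |(l.map th).sum| ≤ 1 / (8 * Y : ℝ))
    (hW : ∀ i ≤ l.length, |((l.take i).map th).sum| + 4 ≤ W)
    (hY : 1 ≤ Y) (hZ : 1 ≤ Z) (hq : 1 ≤ q) (hqZ : q * Z ≤ H) (hH : 2 * H ≤ N)
    (hK : 40 * Y ≤ K) :
    1 ≤ ((l.length + 1 : ℕ) : ℝ) * ((∑ n ∈ SN g N, ((EF W n).card : ℝ)) / (2 * Y : ℝ) +
      20 * (∑ n ∈ Finset.range (K + 1), ((EF W n).card : ℝ)) / (Z : ℝ)) := by
  by_contra hcon
  push Not at hcon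
  set c : ℕ → ℝ := fun i => ((l.take i).map th).sum with hc
  set Bad : Set ℝ := Bad1 g W Y N ∪ Bad2 W K Z with hBad
  have hv1 := vol_Bad1 (g := g) W Y N
  have hv2 := vol_Bad2 W K Z
  have hA0 : 0 ≤ ∑ n ∈ SN g N, ((EF W n).card : ℝ) := Finset.sum_nonneg (fun _ _ => by positivity)
  have hB0 : 0 ≤ ∑ n ∈ Finset.range (K + 1), ((EF W n).card : ℝ) :=
    Finset.sum_nonneg (fun _ _ => by positivity)
  generalize ∑ n ∈ SN g N, ((EF W n).card : ℝ) = A at hv1 hA0 hcon
  generalize ∑ n ∈ Finset.range (K + 1), ((EF W n).card : ℝ) = C at hv2 hB0 hcon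
  have hYR : (1 : ℝ) ≤ Y := by exact_mod_cast hY
  have hZR : (1 : ℝ) ≤ Z := by exact_mod_cast hZ
  have hr0 : 0 ≤ A / (2 * Y : ℝ) + 20 * C / (Z : ℝ) := by positivity
  have hvol : volume Bad ≤ ENNReal.ofReal (A / (2 * Y : ℝ) + 20 * C / (Z : ℝ)) := by
    refine (measure_union_le _ _).trans ?_
    refine (add_le_add hv1 hv2).trans ?_
    rw [← ENNReal.ofReal_add (by positivity) (by positivity)]
    apply ENNReal.ofReal_le_ofReal
    apply le_of_eq
    field_simp
    ring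
  generalize A / (2 * Y : ℝ) + 20 * C / (Z : ℝ) = r at hr0 hvol hcon
  have hU : volume (⋃ i ∈ Finset.range (l.length + 1), (fun x => x + c i) ⁻¹' Bad) ≤
      ENNReal.ofReal (((Finset.range (l.length + 1)).card : ℝ) * r) := by
    apply vol_biUnion_le _ _ _
    intro i _
    rw [measure_preimage_add_right]
    exact hvol
  rw [Finset.card_range] at hU
  have hlt : volume (⋃ i ∈ Finset.range (l.length + 1), (fun x => x + c i) ⁻¹' Bad) < 1 := by
    refine lt_of_le_of_lt hU ?_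
    rw [← ENNReal.ofReal_one]
    exact (ENNReal.ofReal_lt_ofReal_iff one_pos).2 hcon
  obtain ⟨θ, hθ, hθn⟩ : ∃ θ ∈ Set.Icc (0 : ℝ) 1,
      θ ∉ ⋃ i ∈ Finset.range (l.length + 1), (fun x => x + c i) ⁻¹' Bad := by
    by_contra hne
    push Not at hne
    have h1 : volume (Set.Icc (0 : ℝ) 1) ≤
        volume (⋃ i ∈ Finset.range (l.length + 1), (fun x => x + c i) ⁻¹' Bad) :=
      measure_mono hne
    rw [Real.volume_Icc] at h1
    simp only [sub_zero, ENNReal.ofReal_one] at h1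
    exact absurd hlt (not_lt.2 h1)
  simp only [Set.mem_iUnion, Set.mem_preimage, not_exists, Finset.mem_range] at hθn
  apply no_chain hg Y H Z q hY hq hqZ l hl hprod hsum θ
  intro i hi
  have h1 := hθn i (by omega)
  rw [hBad, Set.mem_union, not_or] at h1
  apply good_of_not_bad hg Y N Z H K W hY hZ hH hK _ _ h1.1 h1.2
  have h2 := hW i hi
  have h3 : |θ + c i| ≤ 1 + |c i| := by
    refine (abs_add_le _ _).trans ?_
    have : |θ| ≤ 1 := by rw [abs_le]; constructor <;> linarith [hθ.1, hθ.2]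
    linarith
  have h4 : |c i| + 4 ≤ W := h2
  have h5 : |θ + ((l.take i).map th).sum| = |θ + c i| := rfl
  rw [h5]
  linarith

end

end Pool.Agent.Lib.MP_0b748d_nt
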