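import Mathlib

set_option autoImplicit false

/-!
# The second moment of `τ(n^2 - 2)`
-/

namespace Pool.Agent.Lib.MP_0b748d_nt

noncomputable section

/-- number of divisors -/
def tau (n : ℕ) : ℕ := n.divisors.card

lemma tau_mul_le (a b : ℕ) : tau (a * b) ≤ tau a * tau b := by
  simp only [tau]
  rw [Nat.divisors_mul]
  exact Finset.card_mul_le

lemma tau_pos {n : ℕ} (hn : 0 < n) : 1 ≤ tau n := by
  simp only [tau]
  exact Finset.card_pos.2 ⟨1, Nat.one_mem_divisors.2 hn.ne'⟩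

lemma tau_prime {p : ℕ} (hp : p.Prime) : tau p = 2 := by
  simp only [tau]
  rw [hp.divisors]
  exact Finset.card_pair hp.one_lt.ne

/-- every `m ≤ T^2` has a divisor `d ≤ T` with `τ(m) ≤ 2 τ(d)^2` -/
lemma two_factor (m T : ℕ) (hm : 1 ≤ m) (hmT : m ≤ T ^ 2) :
    ∃ d, d ∣ m ∧ d ≤ T ∧ tau m ≤ 2 * tau d ^ 2 := by
  have hT : 1 ≤ T := by
    by_contra h
    push Not at h
    have : T = 0 := by omega
    subst this
    simp at hmT
    omega
  rcases le_or_gt m T with h | h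
  · refine ⟨m, dvd_rfl, h, ?_⟩
    have := tau_pos hm
    nlinarith
  -- largest divisor at most T
  set S := m.divisors.filter (· ≤ T) with hS
  have hne : S.Nonempty := ⟨1, by
    rw [hS, Finset.mem_filter]
    exact ⟨Nat.one_mem_divisors.2 (by omega), hT⟩⟩
  obtain ⟨d1, hd1S, hmax⟩ := S.exists_max_image id hne
  rw [hS, Finset.mem_filter, Nat.mem_divisors] at hd1S
  obtain ⟨⟨⟨c, hc⟩, hm0⟩, hd1T⟩ := hd1S
  have hd1pos : 0 < d1 := by
    rcases Nat.eq_zero_or_pos d1 with h0 | h0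
    · subst h0; omega
    · exact h0
  have hc1 : c ≠ 1 := by
    rintro rfl
    omega
  obtain ⟨p, hp, e, he⟩ := Nat.exists_prime_and_dvd hc1
  have hbig : T < d1 * p := by
    by_contra hcon
    push Not at hcon
    have hmem : d1 * p ∈ S := by
      rw [hS, Finset.mem_filter, Nat.mem_divisors]
      exact ⟨⟨⟨e, by rw [hc, he]; ring⟩, hm0⟩, hcon⟩
    have h1 := hmax _ hmem
    simp only [id] at h1
    have := hp.two_le
    nlinarith
  have hme : m = d1 * p * e := by rw [hc, he]; ring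
  have heT : e ≤ T := by
    by_contra hcon
    push Not at hcon
    have : T ^ 2 < d1 * p * e := by
      rw [pow_two]
      exact Nat.mul_lt_mul'' hbig hcon
    omega
  have hepos : 0 < e := by
    rcases Nat.eq_zero_or_pos e with h0 | h0
    · subst h0; omega
    · exact h0
  have h1 : tau m ≤ tau d1 * 2 * tau e := by
    rw [hme]
    refine (tau_mul_le _ _).trans ?_
    apply Nat.mul_le_mul_right
    refine (tau_mul_le _ _).trans ?_
    rw [tau_prime hp]
  rcases le_total (tau d1) (tau e) with h2 | h2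
  · refine ⟨e, ⟨d1 * p, by rw [hme]; ring⟩, heT, ?_⟩
    nlinarith
  · refine ⟨d1, ⟨c, hc⟩, hd1T, ?_⟩
    nlinarith

/-- the `n ∈ [2, N]` with `d ∣ n^2 - 2` -/
def Sol (d N : ℕ) : Finset ℕ := (Finset.Icc 2 N).filter (fun n => d ∣ n ^ 2 - 2)

lemma sol_coprime {n : ℤ} {e u : ℤ} (h : e * u ∣ n ^ 2 - 2) {n0 : ℤ} (h1 : e ∣ n - n0)
    (h2 : u ∣ n + n0) : IsCoprime e u := by
  rw [Int.isCoprime_iff_gcd_eq_one]
  by_contra hf
  obtain ⟨p, hp, hpf⟩ := Nat.exists_prime_and_dvd hf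
  have hpf' : (p : ℤ) ∣ Int.gcd e u := by exact_mod_cast hpf
  have hpe : (p : ℤ) ∣ e := hpf'.trans (Int.gcd_dvd_left _ _)
  have hpu : (p : ℤ) ∣ u := hpf'.trans (Int.gcd_dvd_right _ _)
  have hpp : (p : ℤ) * p ∣ n ^ 2 - 2 := (mul_dvd_mul hpe hpu).trans h
  have h2n : (p : ℤ) ∣ 2 * n := by
    have := dvd_add (hpe.trans h1) (hpu.trans h2)
    have h3 : n - n0 + (n + n0) = 2 * n := by ring
    rwa [h3] at this
  have hpZ : Prime (p : ℤ) := Nat.prime_iff_prime_int.1 hp
  have hp2 : (p : ℤ) ∣ 2 := by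
    rcases hpZ.dvd_or_dvd h2n with h3 | h3
    · exact h3
    · have h4 : (p : ℤ) ∣ n ^ 2 - 2 := (dvd_mul_right _ _).trans hpp
      have h5 : (p : ℤ) ∣ n ^ 2 := Dvd.dvd.trans h3 (dvd_pow_self n two_ne_zero)
      have h6 := dvd_sub h5 h4
      simpa using h6
  have hp2' : p = 2 := by
    have : p ∣ 2 := by exact_mod_cast hp2
    exact (Nat.prime_dvd_prime_iff_eq hp Nat.prime_two).1 this
  subst hp2'
  obtain ⟨k, hk⟩ := hpp
  have h7 : n ^ 2 % 4 = 2 := by
    have : n ^ 2 = 4 * k + 2 := by push_cast at hk; linarith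
    rw [this]; omega
  have h8 : n % 4 = 0 ∨ n % 4 = 1 ∨ n % 4 = 2 ∨ n % 4 = 3 := by omega
  rcases h8 with h | h | h | h <;> simp [pow_two, Int.mul_emod, h] at h7

lemma sol_int {d n N : ℕ} (hn : n ∈ Sol d N) : (d : ℤ) ∣ (n : ℤ) ^ 2 - 2 := by
  simp only [Sol, Finset.mem_filter, Finset.mem_Icc] at hn
  have h1 : 2 ≤ n ^ 2 := by nlinarith [hn.1.1]
  have h2 : ((n ^ 2 - 2 : ℕ) : ℤ) = (n : ℤ) ^ 2 - 2 := by push_cast [h1]; ring
  rw [← h2]
  exact_mod_cast hn.2

lemma sol_card_le (d N : ℕ) (hd : 1 ≤ d) : (Sol d N).card ≤ tau d * (N / d + 1) := by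
  rcases (Sol d N).eq_empty_or_nonempty with h | ⟨n0, hn0⟩
  · rw [h]; simp
  have hdZ : (0 : ℤ) < d := by exact_mod_cast hd
  have h0 := sol_int hn0
  have key : ∀ n ∈ Sol d N, ∃ u v : ℤ, (d : ℤ) = (Int.gcd ((n : ℤ) - n0) d : ℤ) * u ∧
      u ∣ (n : ℤ) + n0 ∧ IsCoprime (Int.gcd ((n : ℤ) - n0) d : ℤ) u := by
    intro n hn
    have h1 := sol_int hn
    have hg : 0 < Int.gcd ((n : ℤ) - n0) d := Int.gcd_pos_of_ne_zero_right _ hdZ.ne'
    obtain ⟨v, u, h2, h3, h4⟩ := Int.exists_gcd_one hg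
    set e : ℤ := (Int.gcd ((n : ℤ) - n0) d : ℤ) with he
    have he0 : e ≠ 0 := by rw [he]; exact_mod_cast hg.ne'
    have h5 : (d : ℤ) ∣ ((n : ℤ) - n0) * (n + n0) := by
      have := dvd_sub h1 h0
      have h6 : (n : ℤ) ^ 2 - 2 - ((n0 : ℤ) ^ 2 - 2) = ((n : ℤ) - n0) * (n + n0) := by ring
      rwa [h6] at this
    have hu : u ∣ (n : ℤ) + n0 := by
      rw [h3, h4] at h5
      have h6 : e * u ∣ e * (v * (n + n0)) := by
        have e1 : u * e = e * u := mul_comm _ _
        have e2 : v * e * ((n : ℤ) + n0) = e * (v * (n + n0)) := by ring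
        rwa [e1, e2] at h5
      have h7 : u ∣ v * (n + n0) := (mul_dvd_mul_iff_left he0).1 h6
      exact (Int.isCoprime_iff_gcd_eq_one.2 h2).symm.dvd_of_dvd_mul_left h7
    have hde : (d : ℤ) = e * u := by rw [mul_comm]; exact h4
    refine ⟨u, 0, hde, hu, ?_⟩
    exact sol_coprime (n := n) (by rw [← hde]; exact h1) (Int.gcd_dvd_left _ _) hu
  have hcard : (Sol d N).card ≤ (d.divisors ×ˢ Finset.range (N / d + 1)).card := by
    apply Finset.card_le_card_of_injOn (fun n : ℕ => (Int.gcd ((n : ℤ) - n0) d, n / d))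
    · intro n hn
      have hn' : n ∈ Sol d N := hn
      simp only [Finset.coe_product, Set.mem_prod, Finset.mem_coe, Nat.mem_divisors,
        Finset.mem_range]
      refine ⟨⟨?_, by omega⟩, ?_⟩
      · have := Int.gcd_dvd_right ((n : ℤ) - n0) (d : ℤ)
        exact_mod_cast this
      · simp only [Sol, Finset.mem_filter, Finset.mem_Icc] at hn'
        have := Nat.div_le_div_right (c := d) hn'.1.2
        omega
    · intro n hn n' hn' heq
      simp only [Prod.mk.injEq] at heq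
      obtain ⟨h1, h2⟩ := heq
      obtain ⟨u, _, hu1, hu2, hu3⟩ := key n hn
      obtain ⟨u', _, hu1', hu2', hu3'⟩ := key n' hn'
      rw [← h1] at hu1' hu3'
      set e : ℤ := (Int.gcd ((n : ℤ) - n0) d : ℤ) with he
      have he0 : e ≠ 0 := by
        intro h
        rw [h] at hu1
        omega
      have huu : u = u' := mul_left_cancel₀ he0 (hu1.symm.trans hu1')
      rw [← huu] at hu2'
      have h3 : e ∣ (n : ℤ) - n' := by
        have a1 : e ∣ (n : ℤ) - n0 := Int.gcd_dvd_left _ _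
        have a2 : e ∣ (n' : ℤ) - n0 := by
          rw [he, h1]; exact Int.gcd_dvd_left _ _
        have := dvd_sub a1 a2
        have h6 : (n : ℤ) - n0 - (n' - n0) = n - n' := by ring
        rwa [h6] at this
      have h4 : u ∣ (n : ℤ) - n' := by
        have := dvd_sub hu2 hu2'
        have h6 : (n : ℤ) + n0 - (n' + n0) = n - n' := by ring
        rwa [h6] at this
      have h5 : (d : ℤ) ∣ (n : ℤ) - n' := by
        rw [hu1]; exact hu3.mul_dvd h3 h4
      have h6 : n ≡ n' [MOD d] := ((Nat.modEq_iff_dvd).2 (by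
        have := (dvd_neg (α := ℤ)).2 h5
        have e1 : -((n : ℤ) - n') = n' - n := by ring
        rwa [e1] at this))
      have h7 : n % d = n' % d := h6
      rw [← Nat.div_add_mod n d, ← Nat.div_add_mod n' d, h2, h7]
  rwa [Finset.card_product, Finset.card_range] at hcard

lemma tau_pow_sum (k N : ℕ) : ∑ d ∈ Finset.Icc 1 N, (tau d : ℝ) ^ k / d ≤
    (∑ d ∈ Finset.Icc 1 N, (1 : ℝ) / d) ^ (2 ^ k) := by
  induction k with
  | zero => simp
  | succ k ih =>
    have h0 : 0 ≤ ∑ d ∈ Finset.Icc 1 N, (tau d : ℝ) ^ k / d :=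
      Finset.sum_nonneg (fun _ _ => by positivity)
    have h1 : ∑ d ∈ Finset.Icc 1 N, (tau d : ℝ) ^ (k + 1) / d ≤
        (∑ d ∈ Finset.Icc 1 N, (tau d : ℝ) ^ k / d) ^ 2 := by
      rw [sq, Finset.sum_mul_sum, ← Finset.sum_product']
      have h2 : ∀ d ∈ Finset.Icc 1 N, (tau d : ℝ) ^ (k + 1) / d ≤
          ∑ x ∈ (Finset.Icc 1 N ×ˢ Finset.Icc 1 N).filter (fun x => x.1 * x.2 = d),
            (tau x.1 : ℝ) ^ k / x.1 * ((tau x.2 : ℝ) ^ k / x.2) := by
        intro d hd
        rw [Finset.mem_Icc] at hd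
        have h3 : (tau d : ℝ) ^ (k + 1) / d = ∑ x ∈ d.divisorsAntidiagonal,
            (tau d : ℝ) ^ k / d := by
          rw [Finset.sum_const, nsmul_eq_mul, pow_succ]
          have : d.divisorsAntidiagonal.card = tau d := by
            rw [tau, ← Nat.map_div_right_divisors, Finset.card_map]
          rw [this]; ring
        rw [h3]
        have h4 : d.divisorsAntidiagonal =
            (Finset.Icc 1 N ×ˢ Finset.Icc 1 N).filter (fun x => x.1 * x.2 = d) := by
          ext ⟨a, b⟩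
          simp only [Nat.mem_divisorsAntidiagonal, Finset.mem_filter, Finset.mem_product,
            Finset.mem_Icc]
          constructor
          · rintro ⟨hab, hd0⟩
            have ha : 0 < a := Nat.pos_of_ne_zero (by rintro rfl; simp at hab; omega)
            have hb : 0 < b := Nat.pos_of_ne_zero (by rintro rfl; simp at hab; omega)
            refine ⟨⟨⟨ha, ?_⟩, hb, ?_⟩, hab⟩
            · nlinarith
            · nlinarith
          · rintro ⟨_, hab⟩
            exact ⟨hab, by omega⟩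
        rw [← h4]
        apply Finset.sum_le_sum
        rintro ⟨a, b⟩ hx
        rw [Nat.mem_divisorsAntidiagonal] at hx
        simp only at hx ⊢
        have hab : (d : ℝ) = a * b := by rw [← hx.1]; push_cast; ring
        have ht : (tau d : ℝ) ≤ tau a * tau b := by
          rw [← hx.1]; exact_mod_cast tau_mul_le a b
        rw [div_mul_div_comm, ← hab, ← mul_pow]
        gcongr
      refine (Finset.sum_le_sum h2).trans ?_
      simp only [Finset.sum_filter]
      rw [Finset.sum_comm]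
      apply Finset.sum_le_sum
      intro x _
      rw [Finset.sum_ite_eq]
      split_ifs
      · exact le_rfl
      · positivity
    calc _ ≤ _ := h1
      _ ≤ ((∑ d ∈ Finset.Icc 1 N, (1 : ℝ) / d) ^ (2 ^ k)) ^ 2 := by gcongr
      _ = _ := by rw [← pow_mul, pow_succ]

/-- second moment bound -/
theorem moment (N : ℕ) :
    ∑ n ∈ Finset.Icc 2 N, (tau (n ^ 2 - 2) : ℝ) ^ 2 ≤ 8 * N * (1 + Real.log N) ^ 32 := by
  have h1 : ∀ n ∈ Finset.Icc 2 N, (tau (n ^ 2 - 2) : ℝ) ^ 2 ≤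
      ∑ d ∈ Finset.Icc 1 N, if d ∣ n ^ 2 - 2 then 4 * (tau d : ℝ) ^ 4 else 0 := by
    intro n hn
    rw [Finset.mem_Icc] at hn
    have h2 : 4 ≤ n ^ 2 := by nlinarith
    have h3 : n ^ 2 - 2 ≤ N ^ 2 := by
      have : n ^ 2 ≤ N ^ 2 := Nat.pow_le_pow_left hn.2 2
      omega
    obtain ⟨d, hd1, hd2, hd3⟩ := two_factor (n ^ 2 - 2) N (by omega) h3
    have hd0 : 1 ≤ d := Nat.pos_of_dvd_of_pos hd1 (by omega)
    have h4 : (tau (n ^ 2 - 2) : ℝ) ^ 2 ≤ 4 * (tau d : ℝ) ^ 4 := by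
      have : (tau (n ^ 2 - 2) : ℝ) ≤ 2 * (tau d : ℝ) ^ 2 := by exact_mod_cast hd3
      calc (tau (n ^ 2 - 2) : ℝ) ^ 2 ≤ (2 * (tau d : ℝ) ^ 2) ^ 2 := by gcongr
        _ = 4 * (tau d : ℝ) ^ 4 := by ring
    refine h4.trans ?_
    have h5 := Finset.single_le_sum (f := fun d => if d ∣ n ^ 2 - 2 then 4 * (tau d : ℝ) ^ 4 else 0)
      (s := Finset.Icc 1 N) (by intro i _; split_ifs <;> positivity)
      (Finset.mem_Icc.2 ⟨hd0, hd2⟩)
    simp only [if_pos hd1] at h5
    exact h5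
  refine (Finset.sum_le_sum h1).trans ?_
  rw [Finset.sum_comm]
  have h2 : ∀ d ∈ Finset.Icc 1 N, (∑ n ∈ Finset.Icc 2 N,
      if d ∣ n ^ 2 - 2 then 4 * (tau d : ℝ) ^ 4 else 0) ≤ 8 * N * ((tau d : ℝ) ^ 5 / d) := by
    intro d hd
    rw [Finset.mem_Icc] at hd
    rw [← Finset.sum_filter, Finset.sum_const, nsmul_eq_mul]
    have h3 : ((Sol d N).card : ℝ) ≤ tau d * (N / d + 1 : ℕ) := by
      exact_mod_cast sol_card_le d N hd.1
    have hdR : (0 : ℝ) < d := by exact_mod_cast hd.1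
    have h4 : ((N / d + 1 : ℕ) : ℝ) ≤ 2 * (N / d) := by
      push_cast
      have h5 : ((N / d : ℕ) : ℝ) ≤ (N : ℝ) / d := Nat.cast_div_le
      have h6 : (1 : ℝ) ≤ N / d := by
        rw [one_le_div hdR]; exact_mod_cast hd.2
      linarith
    have h5 : ((Finset.Icc 2 N).filter (fun n => d ∣ n ^ 2 - 2)).card = (Sol d N).card := rfl
    rw [h5]
    calc ((Sol d N).card : ℝ) * (4 * (tau d : ℝ) ^ 4)
        ≤ (tau d * (2 * (N / d))) * (4 * (tau d : ℝ) ^ 4) := by
          apply mul_le_mul_of_nonneg_right _ (by positivity)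
          refine h3.trans ?_
          gcongr
      _ = 8 * N * ((tau d : ℝ) ^ 5 / d) := by ring
  refine (Finset.sum_le_sum h2).trans ?_
  rw [← Finset.mul_sum]
  apply mul_le_mul_of_nonneg_left _ (by positivity)
  refine (tau_pow_sum 5 N).trans ?_
  have h3 : ∑ d ∈ Finset.Icc 1 N, (1 : ℝ) / d ≤ 1 + Real.log N := by
    have := harmonic_le_one_add_log N
    rw [harmonic_eq_sum_Icc] at this
    push_cast at this
    simpa [one_div] using this
  have h4 : 0 ≤ ∑ d ∈ Finset.Icc 1 N, (1 : ℝ) / d := Finset.sum_nonneg (fun _ _ => by positivity)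
  calc _ ≤ (1 + Real.log N) ^ 2 ^ 5 := by gcongr
    _ = _ := by norm_num

end

end Pool.Agent.Lib.MP_0b748d_nt
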