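import Pool.Agent.Lib.MP_0b748d_nt.Core
import Pool.Agent.Lib.MP_0b748d_nt.Count
import Pool.Agent.Lib.MP_0b748d_nt.Cover
import Pool.Agent.Lib.MP_0b748d_nt.Moment

set_option autoImplicit false

/-!
# Many `n` with `g (n^2 - 2) = 1`

In every Farey triangle `(a, b, a + b)` at least one of the three edges has sign `+1`.
-/

namespace Pool.Agent.Lib.MP_0b748d_nt

open Zsqrtd

noncomputable section

variable {g : ℕ → ℤ}

lemma TP_of_B {a v : ℤ√2} (hv : TP v) (hB : 0 < B a v) (hn : 0 < nm a) : TP a := by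
  have c1 := cross1 a v
  have c2 := cross2 a v
  have h1 : s1 v * s2 a + s1 a * s2 v = 2 * B a v := by rw [c1, c2]; ring
  have hB' : (0 : ℝ) < B a v := by exact_mod_cast hB
  have hn' : (0 : ℝ) < s1 a * s2 a := by rw [s1_mul_s2]; exact_mod_cast hn
  obtain ⟨hv1, hv2⟩ := hv
  rcases (mul_pos_iff.1 hn') with ⟨h2, h3⟩ | ⟨h2, h3⟩
  · exact ⟨h2, h3⟩
  · exfalso
    nlinarith [mul_neg_of_pos_of_neg hv1 h3, mul_neg_of_neg_of_pos h2 hv2]

lemma parents {v : ℤ√2} (hv : TP v) (pv : Prim v) (hn : 3 ≤ nm v) :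
    ∃ a b : ℤ√2, TP a ∧ TP b ∧ det a b = 1 ∧ a + b = v ∧ B a v ≤ nm v ∧ B v b ≤ nm v ∧
      B a b ≤ nm v := by
  obtain ⟨u1, u2, hu⟩ := pv
  set a0 : ℤ√2 := ⟨u2, -u1⟩ with ha0
  set q : ℤ := B a0 v / nm v with hq
  set r : ℤ := B a0 v % nm v with hr
  have hqr : nm v * q + r = B a0 v := Int.mul_ediv_add_emod _ _
  have hr0 : 0 ≤ r := Int.emod_nonneg _ (by omega)
  have hr1 : r < nm v := Int.emod_lt_of_pos _ (by omega)
  set a : ℤ√2 := ⟨u2 - q * v.re, -u1 - q * v.im⟩ with ha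
  have hdet : det a v = 1 := by
    simp only [det, ha]; linear_combination hu
  have hBa : B a v = r := by
    have h1 : B a v = B a0 v - q * nm v := by
      simp only [B, nm, ha, ha0]; ring
    rw [h1, ← hqr]; ring
  have hnn := B_sq a v
  rw [hdet, hBa] at hnn
  have hr2 : 2 ≤ r := by
    by_contra hc
    push Not at hc
    have : r = 0 ∨ r = 1 := by omega
    rcases this with h | h
    · rw [h] at hnn
      have : nm v ∣ 2 := ⟨- nm a, by linarith⟩
      have := Int.le_of_dvd two_pos this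
      omega
    · rw [h] at hnn
      have : nm v ∣ 1 := ⟨- nm a, by linarith⟩
      have := Int.le_of_dvd one_pos this
      omega
  have hr3 : r ≤ nm v - 2 := by
    by_contra hc
    push Not at hc
    have h : r = nm v - 1 := by omega
    rw [h] at hnn
    have : nm v ∣ 1 := ⟨nm v - 2 - nm a, by linarith⟩
    have := Int.le_of_dvd one_pos this
    omega
  have hna : 0 < nm a := by
    have : 0 < nm a * nm v := by rw [hnn]; nlinarith
    exact (pos_iff_pos_of_mul_pos this).2 (by omega)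
  have hTa : TP a := TP_of_B hv (by omega) hna
  set b : ℤ√2 := v - a with hb
  have hab : a + b = v := by rw [hb]; ring
  have hbre : b.re = v.re - a.re := by rw [hb]; exact re_sub _ _
  have hbim : b.im = v.im - a.im := by rw [hb]; exact im_sub _ _
  have hBb : B b v = nm v - r := by
    have : B b v = nm v - B a v := by
      simp only [B, nm, hbre, hbim]; ring
    rw [this, hBa]
  have hdetb : det b v = -1 := by
    have : det b v = - det a v := by simp only [det, hbre, hbim]; ring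
    rw [this, hdet]
  have hnnb := B_sq b v
  rw [hdetb, hBb] at hnnb
  have hnb : 0 < nm b := by
    have : 0 < nm b * nm v := by rw [hnnb]; nlinarith
    exact (pos_iff_pos_of_mul_pos this).2 (by omega)
  have hTb : TP b := TP_of_B hv (by omega) hnb
  refine ⟨a, b, hTa, hTb, ?_, hab, by omega, ?_, ?_⟩
  · have : det a b = det a v := by simp only [det, hbre, hbim]; ring
    rw [this, hdet]
  · rw [B_comm, hBb]; omega
  · have : B a b = B a v - nm a := by simp only [B, nm, hbre, hbim]; ring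
    omega

/-- the set of `n ∈ [2, N]` with `g (n^2 - 2) = 1` -/
def SP (g : ℕ → ℤ) (N : ℕ) : Finset ℕ :=
  (Finset.range (N + 1)).filter (fun n => 2 ≤ n ∧ g (n ^ 2 - 2) = 1)

lemma mem_edge_of (N : ℕ) {a b : ℤ√2} (ha : TP a) (hb : TP b) (hdet : det a b = 1)
    (hF : F g a * F g b = 1) (hg : CM g) (hB : B a b ≤ N) (hW : |th a| ≤ 5) :
    ∃ n ∈ SP g N, (a, b) ∈ EF 5 n := by
  have h1 := B_edge_ge ha hb hdet
  rw [F_edge hg ha hb hdet] at hF
  refine ⟨(B a b).toNat, ?_, ?_⟩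
  · simp only [SP, Finset.mem_filter, Finset.mem_range]
    exact ⟨by omega, by omega, hF⟩
  · rw [mem_EF]
    exact ⟨ha, hb, hdet, by simp only; omega, by exact_mod_cast hW⟩

lemma vertex_le (hg : CM g) (N : ℕ) (V : Finset (ℤ√2))
    (hV : ∀ v ∈ V, TP v ∧ Prim v ∧ 3 ≤ nm v ∧ nm v ≤ N ∧ |th v| ≤ 5 / 2) :
    V.card ≤ 3 * ∑ n ∈ SP g N, (EF 5 n).card := by
  classical
  set Ed : Finset (ℤ√2 × ℤ√2) := (SP g N).biUnion (EF 5) with hEd
  have hsub : V ⊆ Ed.image (fun e => e.1 + e.2) ∪ (Ed.image (fun e => e.2) ∪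
      Ed.image (fun e => e.1)) := by
    intro v hv
    obtain ⟨hT, hP, hn3, hnN, hth⟩ := hV v hv
    obtain ⟨a, b, ha, hb, hdet, hab, h1, h2, h3⟩ := parents hT hP hn3
    have hdav : det a v = 1 := by
      rw [← hab, ← hdet]; simp only [det, re_add, im_add]; ring
    have hdvb : det v b = 1 := by
      rw [← hab, ← hdet]; simp only [det, re_add, im_add]; ring
    have hlen : th v - th a ≤ 5 / 2 := by
      refine (edge_len_le ha hT hdav).trans ?_
      have : (2 : ℝ) ≤ B a v := by exact_mod_cast B_edge_ge ha hT hdav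
      gcongr
    have hlt := (th_lt_iff ha hT).2 (by rw [hdav]; exact one_pos)
    rw [abs_le] at hth
    have hWa : |th a| ≤ 5 := by rw [abs_le]; constructor <;> linarith
    have hWv : |th v| ≤ 5 := by rw [abs_le]; constructor <;> linarith
    simp only [Finset.mem_union, Finset.mem_image]
    have hcases : F g a * F g b = 1 ∨ F g a * F g v = 1 ∨ F g v * F g b = 1 := by
      rcases F_val hg ha with f1 | f1 <;> rcases F_val hg hb with f2 | f2 <;>
        rcases F_val hg hT with f3 | f3 <;> rw [f1, f2, f3] <;> norm_num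
    rcases hcases with hF | hF | hF
    · left
      obtain ⟨n, hn, he⟩ := mem_edge_of N ha hb hdet hF hg (by omega) hWa
      exact ⟨(a, b), by rw [hEd, Finset.mem_biUnion]; exact ⟨n, hn, he⟩, hab⟩
    · right; left
      obtain ⟨n, hn, he⟩ := mem_edge_of N ha hT hdav hF hg (by omega) hWa
      exact ⟨(a, v), by rw [hEd, Finset.mem_biUnion]; exact ⟨n, hn, he⟩, rfl⟩
    · right; right
      obtain ⟨n, hn, he⟩ := mem_edge_of N hT hb hdvb hF hg (by omega) hWv
      exact ⟨(v, b), by rw [hEd, Finset.mem_biUnion]; exact ⟨n, hn, he⟩, rfl⟩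
  have hE : Ed.card ≤ ∑ n ∈ SP g N, (EF 5 n).card := Finset.card_biUnion_le
  have h1 := Finset.card_le_card hsub
  have h2 := Finset.card_union_le (Ed.image (fun e => e.1 + e.2)) (Ed.image (fun e => e.2) ∪
      Ed.image (fun e => e.1))
  have h3 := Finset.card_union_le (Ed.image (fun e => e.2)) (Ed.image (fun e => e.1))
  have h4 := Finset.card_image_le (s := Ed) (f := fun e => e.1 + e.2)
  have h5 := Finset.card_image_le (s := Ed) (f := fun e => e.2)
  have h6 := Finset.card_image_le (s := Ed) (f := fun e => e.1)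
  omega

/-- coprime pairs in a box -/
def CP (T : ℕ) : Finset (ℕ × ℕ) :=
  (Finset.Ioc (2 * T) (4 * T) ×ˢ Finset.Ioc 0 T).filter (fun x => Nat.Coprime x.1 x.2)

lemma card_mult_le (T d : ℕ) (hd : 1 ≤ d) :
    ((Finset.Ioc (2 * T) (4 * T)).filter (fun x => d ∣ x)).card ≤ 2 * T / d + 1 := by
  have h1 := Nat.Ioc_filter_dvd_card_eq_div (4 * T) d
  have h2 := Nat.Ioc_filter_dvd_card_eq_div (2 * T) d
  have h3 : (Finset.Ioc 0 (4 * T)).filter (fun x => d ∣ x) =
      (Finset.Ioc 0 (2 * T)).filter (fun x => d ∣ x) ∪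
      (Finset.Ioc (2 * T) (4 * T)).filter (fun x => d ∣ x) := by
    rw [← Finset.filter_union]
    congr 1
    ext x
    simp only [Finset.mem_union, Finset.mem_Ioc]
    omega
  have h4 : Disjoint ((Finset.Ioc 0 (2 * T)).filter (fun x => d ∣ x))
      ((Finset.Ioc (2 * T) (4 * T)).filter (fun x => d ∣ x)) := by
    rw [Finset.disjoint_left]
    intro x hx hx'
    simp only [Finset.mem_filter, Finset.mem_Ioc] at hx hx'
    omega
  rw [h3, Finset.card_union_of_disjoint h4, h2] at h1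
  have h5 : 4 * T / d ≤ 2 * T / d + 2 * T / d + 1 := by
    have e : 4 * T = 2 * T + 2 * T := by ring
    rw [e]
    have := Nat.add_div (a := 2 * T) (b := 2 * T) (c := d) (by omega)
    rw [this]
    split_ifs <;> omega
  omega

lemma sum_inv_sq (T : ℕ) (hT : 1 ≤ T) :
    ∑ d ∈ Finset.Icc 2 T, (1 : ℝ) / d ^ 2 ≤ 2 / 3 - 1 / (T + 1 / 2) := by
  induction T, hT using Nat.le_induction with
  | base => norm_num
  | succ T hT ih =>
    rw [Finset.sum_Icc_succ_top (by omega)]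
    have hTR : (1 : ℝ) ≤ T := by exact_mod_cast hT
    have h1 : (1 : ℝ) / ((T + 1 : ℕ) : ℝ) ^ 2 ≤ 1 / (T + 1 / 2) - 1 / (((T + 1 : ℕ) : ℝ) + 1 / 2) := by
      push_cast
      rw [div_sub_div _ _ (by positivity) (by positivity), div_le_div_iff₀ (by positivity) (by positivity)]
      nlinarith
    linarith

lemma CP_card (T : ℕ) (hT : 36 ≤ T) : (T : ℝ) ^ 2 / 3 ≤ (CP T).card := by
  classical
  have hTR : (36 : ℝ) ≤ T := by exact_mod_cast hT
  set P : Finset (ℕ × ℕ) := Finset.Ioc (2 * T) (4 * T) ×ˢ Finset.Ioc 0 T with hP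
  have hPc : P.card = 2 * T * T := by
    rw [hP, Finset.card_product, Nat.card_Ioc, Nat.card_Ioc]
    congr 1
    omega
  have hsplit : (CP T).card + (P.filter (fun x => ¬ Nat.Coprime x.1 x.2)).card = P.card :=
    Finset.card_filter_add_card_filter_not _
  have hsub : P.filter (fun x => ¬ Nat.Coprime x.1 x.2) ⊆
      (Finset.Icc 2 T).biUnion (fun d => ((Finset.Ioc (2 * T) (4 * T)).filter (fun x => d ∣ x)) ×ˢ
        ((Finset.Ioc 0 T).filter (fun x => d ∣ x))) := by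
    rintro ⟨x, y⟩ hxy
    simp only [hP, Finset.mem_filter, Finset.mem_product, Finset.mem_Ioc, Finset.mem_biUnion,
      Finset.mem_Icc] at hxy ⊢
    obtain ⟨⟨hx, hy⟩, hc⟩ := hxy
    refine ⟨Nat.gcd x y, ⟨?_, ?_⟩, ⟨hx, Nat.gcd_dvd_left _ _⟩, ⟨hy, Nat.gcd_dvd_right _ _⟩⟩
    · have h0 : 0 < Nat.gcd x y := Nat.gcd_pos_of_pos_right _ hy.1
      have h1 : Nat.gcd x y ≠ 1 := hc
      omega
    · exact (Nat.le_of_dvd hy.1 (Nat.gcd_dvd_right _ _)).trans hy.2
  have hb : ((P.filter (fun x => ¬ Nat.Coprime x.1 x.2)).card : ℝ) ≤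
      ∑ d ∈ Finset.Icc 2 T, (2 * (T : ℝ) ^ 2 * (1 / d ^ 2) + T * (1 / d)) := by
    have h1 : (P.filter (fun x => ¬ Nat.Coprime x.1 x.2)).card ≤
        ∑ d ∈ Finset.Icc 2 T, (2 * T / d + 1) * (T / d) := by
      refine (Finset.card_le_card hsub).trans (Finset.card_biUnion_le.trans ?_)
      apply Finset.sum_le_sum
      intro d hd
      rw [Finset.mem_Icc] at hd
      rw [Finset.card_product, Nat.Ioc_filter_dvd_card_eq_div]
      exact Nat.mul_le_mul_right _ (card_mult_le T d (by omega))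
    have h2 : ((P.filter (fun x => ¬ Nat.Coprime x.1 x.2)).card : ℝ) ≤
        ((∑ d ∈ Finset.Icc 2 T, (2 * T / d + 1) * (T / d) : ℕ) : ℝ) := by exact_mod_cast h1
    refine h2.trans ?_
    push_cast
    apply Finset.sum_le_sum
    intro d hd
    rw [Finset.mem_Icc] at hd
    have hd0 : (0 : ℝ) < d := by exact_mod_cast (by omega : 0 < d)
    have e1 : ((2 * T / d : ℕ) : ℝ) ≤ 2 * T / d := by
      have := Nat.cast_div_le (α := ℝ) (m := 2 * T) (n := d)
      push_cast at this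
      exact this
    have e2 : ((T / d : ℕ) : ℝ) ≤ T / d := Nat.cast_div_le
    calc (((2 * T / d : ℕ) : ℝ) + 1) * ((T / d : ℕ) : ℝ) ≤ (2 * T / d + 1) * (T / d) := by
          gcongr
      _ = _ := by field_simp
  rw [Finset.sum_add_distrib, ← Finset.mul_sum, ← Finset.mul_sum] at hb
  have h3 := sum_inv_sq T (by omega)
  have h4 : ∑ d ∈ Finset.Icc 2 T, (1 : ℝ) / d ≤ 1 + Real.log T := by
    have h5 : ∑ d ∈ Finset.Icc 2 T, (1 : ℝ) / d ≤ ∑ d ∈ Finset.Icc 1 T, (1 : ℝ) / d := by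
      apply Finset.sum_le_sum_of_subset_of_nonneg
      · intro x hx; rw [Finset.mem_Icc] at hx ⊢; omega
      · intro _ _ _; positivity
    have := harmonic_le_one_add_log T
    rw [harmonic_eq_sum_Icc] at this
    push_cast at this
    refine h5.trans ?_
    simpa [one_div] using this
  have h5 : 1 + Real.log T ≤ T / 3 := by
    have e1 : Real.log T = 2 * Real.log (√T) := by
      rw [Real.log_sqrt (by positivity)]; ring
    have e2 : Real.log (√T) ≤ √T - 1 := Real.log_le_sub_one_of_pos (by positivity)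
    have e3 : (6 : ℝ) ≤ √T := by
      apply Real.le_sqrt_of_sq_le; linarith
    have e4 : √(T : ℝ) * √T = T := Real.mul_self_sqrt (by positivity)
    nlinarith
  have h6 : ((CP T).card : ℝ) + ((P.filter (fun x => ¬ Nat.Coprime x.1 x.2)).card : ℝ) =
      2 * T * T := by
    rw [hPc] at hsplit
    exact_mod_cast hsplit
  have h7 : 0 < 1 / ((T : ℝ) + 1 / 2) := by positivity
  nlinarith [mul_le_mul_of_nonneg_left h5 (show (0 : ℝ) ≤ T by positivity),
    mul_le_mul_of_nonneg_left h4 (show (0 : ℝ) ≤ T by positivity),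
    mul_le_mul_of_nonneg_left (show ∑ d ∈ Finset.Icc 2 T, (1 : ℝ) / d ^ 2 ≤ 2 / 3 by linarith)
      (show (0 : ℝ) ≤ 2 * (T : ℝ) ^ 2 by positivity)]

/-- Cauchy–Schwarz for the number of edges -/
lemma edges_CS (N W : ℕ) (S : Finset ℕ) (hS : S ⊆ Finset.Icc 2 N) :
    (∑ n ∈ S, ((EF W n).card : ℝ)) ^ 2 ≤
      S.card * ((2 * W + 1) ^ 2 * (8 * N * (1 + Real.log N) ^ 32)) := by
  have h1 : (∑ n ∈ S, ((EF W n).card : ℝ)) ^ 2 ≤ S.card * ∑ n ∈ S, ((EF W n).card : ℝ) ^ 2 :=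
    sq_sum_le_card_mul_sum_sq
  refine h1.trans ?_
  apply mul_le_mul_of_nonneg_left _ (by positivity)
  have h2 : ∀ n ∈ S, ((EF W n).card : ℝ) ^ 2 ≤ (2 * W + 1) ^ 2 * (tau (n ^ 2 - 2) : ℝ) ^ 2 := by
    intro n _
    have h3 : ((EF W n).card : ℝ) ≤ (tau (n ^ 2 - 2) : ℝ) * (2 * W + 1) := by
      exact_mod_cast EF_card W n
    rw [← mul_pow, mul_comm]
    gcongr
  refine (Finset.sum_le_sum h2).trans ?_
  rw [← Finset.mul_sum]
  apply mul_le_mul_of_nonneg_left _ (by positivity)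
  refine le_trans ?_ (moment N)
  exact Finset.sum_le_sum_of_subset_of_nonneg hS (fun _ _ _ => by positivity)

lemma vertices (T N : ℕ) (hT : 2 ≤ T) (hN : 16 * T ^ 2 ≤ N) (hg : CM g) :
    (CP T).card ≤ 3 * ∑ n ∈ SP g N, (EF 5 n).card := by
  classical
  have h := vertex_le hg N ((CP T).image (fun x => (⟨x.1, x.2⟩ : ℤ√2))) (by
    intro v hv
    rw [Finset.mem_image] at hv
    obtain ⟨⟨x, y⟩, hxy, rfl⟩ := hv
    simp only [CP, Finset.mem_filter, Finset.mem_product, Finset.mem_Ioc] at hxy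
    obtain ⟨⟨⟨hx1, hx2⟩, hy1, hy2⟩, hc⟩ := hxy
    have hx1' : (2 * T : ℤ) < x := by exact_mod_cast hx1
    have hx2' : (x : ℤ) ≤ 4 * T := by exact_mod_cast hx2
    have hy1' : (0 : ℤ) < y := by exact_mod_cast hy1
    have hy2' : (y : ℤ) ≤ T := by exact_mod_cast hy2
    have hT' : (2 : ℤ) ≤ T := by exact_mod_cast hT
    have hN' : (16 * T ^ 2 : ℤ) ≤ N := by exact_mod_cast hN
    have hnm : nm (⟨(x : ℤ), (y : ℤ)⟩ : ℤ√2) = (x : ℤ) ^ 2 - 2 * (y : ℤ) ^ 2 := rfl
    have hn3 : 3 ≤ nm (⟨(x : ℤ), (y : ℤ)⟩ : ℤ√2) := by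
      rw [hnm]; nlinarith
    have hTv : TP (⟨(x : ℤ), (y : ℤ)⟩ : ℤ√2) := by
      rw [TP_iff]
      exact ⟨by simp only; omega, by omega⟩
    refine ⟨hTv, ?_, hn3, ?_, ?_⟩
    · exact Nat.isCoprime_iff_coprime.2 hc
    · rw [hnm]; nlinarith
    · have h1 : th 1 < th (⟨(x : ℤ), (y : ℤ)⟩ : ℤ√2) := by
        rw [th_lt_iff TP_one hTv]
        simp only [det, re_one, im_one]
        omega
      have h2 : th (⟨(x : ℤ), (y : ℤ)⟩ : ℤ√2) < th ⟨2, 1⟩ := by
        rw [th_lt_iff hTv TP_w]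
        simp only [det]
        omega
      have h3 := edge_len_le TP_one TP_w (by simp [det])
      have h4 : B 1 (⟨2, 1⟩ : ℤ√2) = 2 := by simp [B]
      rw [h4] at h3
      push_cast at h3
      rw [th_one] at h1 h3
      rw [abs_le]
      constructor <;> linarith)
  rw [Finset.card_image_of_injective] at h
  · exact h
  · rintro ⟨x, y⟩ ⟨x', y'⟩ hxy
    simp only [Zsqrtd.mk.injEq, Nat.cast_inj] at hxy
    exact Prod.ext hxy.1 hxy.2

theorem plus_side : ∃ N₀ : ℕ, ∀ N : ℕ, N₀ ≤ N → ∀ g : ℕ → ℤ, CM g →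
    (N : ℝ) / (Real.log N) ^ 33 ≤ (SP g N).card := by
  have hlim : Filter.Tendsto (fun N : ℕ => Real.log N) Filter.atTop Filter.atTop :=
    Real.tendsto_log_atTop.comp tendsto_natCast_atTop_atTop
  obtain ⟨N1, hN1⟩ := Filter.eventually_atTop.1 (hlim.eventually_ge_atTop (2 ^ 32 * 8 * 2500 ^ 2 : ℝ))
  refine ⟨max N1 100000, ?_⟩
  intro N hN g hg
  have hN2 : 100000 ≤ N := le_trans (le_max_right _ _) hN
  have hlog := hN1 N (le_trans (le_max_left _ _) hN)
  set T : ℕ := Nat.sqrt N / 4 with hT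
  have hsq : Nat.sqrt N ^ 2 ≤ N := Nat.sqrt_le' N
  have hsq2 : N < (Nat.sqrt N + 1) ^ 2 := Nat.lt_succ_sqrt' N
  have hs316 : 316 ≤ Nat.sqrt N := by
    by_contra hc
    push Not at hc
    have : (Nat.sqrt N + 1) ^ 2 ≤ 316 ^ 2 := Nat.pow_le_pow_left (by omega) 2
    omega
  have hT36 : 36 ≤ T := by omega
  have h16 : 16 * T ^ 2 ≤ N := by
    have : 4 * T ≤ Nat.sqrt N := by omega
    calc 16 * T ^ 2 = (4 * T) ^ 2 := by ring
      _ ≤ Nat.sqrt N ^ 2 := Nat.pow_le_pow_left this 2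
      _ ≤ N := hsq
  have hTlow : Nat.sqrt N + 1 ≤ 5 * T := by omega
  have hNT : N ≤ 25 * T ^ 2 := by
    have : (Nat.sqrt N + 1) ^ 2 ≤ (5 * T) ^ 2 := Nat.pow_le_pow_left hTlow 2
    nlinarith
  have h1 := CP_card T hT36
  have h2 := vertices T N (by omega) h16 hg
  have h2' : ((CP T).card : ℝ) ≤ 3 * ∑ n ∈ SP g N, ((EF 5 n).card : ℝ) := by exact_mod_cast h2
  have hNT' : (N : ℝ) ≤ 25 * (T : ℝ) ^ 2 := by exact_mod_cast hNT
  have hSsub : SP g N ⊆ Finset.Icc 2 N := by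
    intro n hn
    simp only [SP, Finset.mem_filter, Finset.mem_range, Finset.mem_Icc] at hn ⊢
    omega
  have h3 := edges_CS N 5 (SP g N) hSsub
  have hNpos : (0 : ℝ) < N := by exact_mod_cast (by omega : 0 < N)
  have h4 : (N : ℝ) / 225 ≤ ∑ n ∈ SP g N, ((EF 5 n).card : ℝ) := by linarith
  have h5 : ((N : ℝ) / 225) ^ 2 ≤ (∑ n ∈ SP g N, ((EF 5 n).card : ℝ)) ^ 2 := by gcongr
  set L := Real.log N with hL
  have hLpos : 1 ≤ L := le_trans (by norm_num) hlog
  have h6 : (1 + L) ^ 32 ≤ 2 ^ 32 * L ^ 32 := by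
    rw [← mul_pow]
    gcongr
    linarith
  have h7 : ((N : ℝ) / 225) ^ 2 ≤ (SP g N).card * (121 * (8 * N * (2 ^ 32 * L ^ 32))) := by
    refine h5.trans (h3.trans ?_)
    have : (2 * ((5 : ℕ) : ℝ) + 1) ^ 2 = 121 := by norm_num
    rw [this]
    gcongr
  have h8 : (N : ℝ) / 225 ^ 2 ≤ (SP g N).card * (121 * (8 * (2 ^ 32 * L ^ 32))) := by
    have e1 : ((N : ℝ) / 225) ^ 2 = N * (N / 225 ^ 2) := by ring
    have e2 : ((SP g N).card : ℝ) * (121 * (8 * N * (2 ^ 32 * L ^ 32))) =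
      N * ((SP g N).card * (121 * (8 * (2 ^ 32 * L ^ 32)))) := by ring
    rw [e1, e2] at h7
    exact le_of_mul_le_mul_left h7 hNpos
  rw [div_le_iff₀ (by positivity)]
  have h9 : (N : ℝ) ≤ (SP g N).card * (225 ^ 2 * 121 * 8 * 2 ^ 32 * L ^ 32) := by
    rw [div_le_iff₀ (by norm_num)] at h8
    linarith
  refine h9.trans ?_
  apply mul_le_mul_of_nonneg_left _ (by positivity)
  rw [pow_succ L 32]
  nlinarith [show (0 : ℝ) < L ^ 32 by positivity]

end

end Pool.Agent.Lib.MP_0b748d_nt
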