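import Mathlib

set_option autoImplicit false

/-!
# Sign changes of `g (n^2 - 2)`

For every completely multiplicative `g : ℕ → {1,-1}` the number of `n ≤ N` with `g (n^2-2) = -1`
is at most `12 √N` times the number of sign changes up to `4N`.
-/

namespace Pool.Agent.Lib.MP_0b748d_nt.SignChange

open Finset

/-- the set of sign changes up to `N` -/
def DD (g : ℕ → ℤ) (N : ℕ) : Finset ℕ :=
  (Icc 2 N).filter (fun n => g (n ^ 2 - 2) ≠ g ((n + 1) ^ 2 - 2))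

/-- the set of `n ≤ N` with value `-1` -/
def MM (g : ℕ → ℤ) (N : ℕ) : Finset ℕ := (Icc 2 N).filter (fun n => g (n ^ 2 - 2) = -1)

variable {g : ℕ → ℤ}

theorem cons_mul (hm : ∀ m n : ℕ, 0 < m → 0 < n → g (m * n) = g m * g n) {x : ℕ} (hx : 2 ≤ x) :
    g (x ^ 2 - 2) * g ((x + 1) ^ 2 - 2) = g ((x ^ 2 + x - 2) ^ 2 - 2) := by
  obtain ⟨k, rfl⟩ := Nat.exists_eq_add_of_le hx
  have h1 : (2 + k) ^ 2 - 2 = k ^ 2 + 4 * k + 2 := by
    have : (2 + k) ^ 2 = k ^ 2 + 4 * k + 2 + 2 := by ring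
    omega
  have h2 : (2 + k + 1) ^ 2 - 2 = k ^ 2 + 6 * k + 7 := by
    have : (2 + k + 1) ^ 2 = k ^ 2 + 6 * k + 7 + 2 := by ring
    omega
  have h3 : (2 + k) ^ 2 + (2 + k) - 2 = k ^ 2 + 5 * k + 4 := by
    have : (2 + k) ^ 2 + (2 + k) = k ^ 2 + 5 * k + 4 + 2 := by ring
    omega
  have h4 : (k ^ 2 + 5 * k + 4) ^ 2 - 2 = (k ^ 2 + 4 * k + 2) * (k ^ 2 + 6 * k + 7) := by
    have : (k ^ 2 + 5 * k + 4) ^ 2 = (k ^ 2 + 4 * k + 2) * (k ^ 2 + 6 * k + 7) + 2 := by ring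
    omega
  rw [h3, h4, h1, h2, hm _ _ (by positivity) (by positivity)]

theorem even_mul (hm : ∀ m n : ℕ, 0 < m → 0 < n → g (m * n) = g m * g n)
    (hv : ∀ m : ℕ, 0 < m → g m = 1 ∨ g m = -1) {y : ℕ} (hy : 1 ≤ y) :
    g ((2 * y) ^ 2 - 2) * g ((2 * y + 2) ^ 2 - 2) = g ((2 * y ^ 2 + 2 * y - 1) ^ 2 - 2) := by
  obtain ⟨k, rfl⟩ := Nat.exists_eq_add_of_le hy
  have h1 : (2 * (1 + k)) ^ 2 - 2 = 4 * k ^ 2 + 8 * k + 2 := by
    have : (2 * (1 + k)) ^ 2 = 4 * k ^ 2 + 8 * k + 2 + 2 := by ring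
    omega
  have h2 : (2 * (1 + k) + 2) ^ 2 - 2 = 4 * k ^ 2 + 16 * k + 14 := by
    have : (2 * (1 + k) + 2) ^ 2 = 4 * k ^ 2 + 16 * k + 14 + 2 := by ring
    omega
  have h3 : 2 * (1 + k) ^ 2 + 2 * (1 + k) - 1 = 2 * k ^ 2 + 6 * k + 3 := by
    have : 2 * (1 + k) ^ 2 + 2 * (1 + k) = 2 * k ^ 2 + 6 * k + 3 + 1 := by ring
    omega
  have h5 : (2 * k ^ 2 + 6 * k + 3) ^ 2 - 2 = 4 * k ^ 4 + 24 * k ^ 3 + 48 * k ^ 2 + 36 * k + 7 := by
    have : (2 * k ^ 2 + 6 * k + 3) ^ 2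
        = 4 * k ^ 4 + 24 * k ^ 3 + 48 * k ^ 2 + 36 * k + 7 + 2 := by ring
    omega
  have h6 : (4 * k ^ 2 + 8 * k + 2) * (4 * k ^ 2 + 16 * k + 14)
      = (2 * 2) * (4 * k ^ 4 + 24 * k ^ 3 + 48 * k ^ 2 + 36 * k + 7) := by ring
  rw [h3, h5, h1, h2, ← hm _ _ (by positivity) (by positivity), h6,
    hm _ _ (by positivity) (by positivity), hm _ _ (by positivity) (by positivity)]
  rcases hv 2 (by norm_num) with h | h <;> rw [h] <;> ring

/-- the key identity -/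
theorem key (hm : ∀ m n : ℕ, 0 < m → 0 < n → g (m * n) = g m * g n)
    (hv : ∀ m : ℕ, 0 < m → g m = 1 ∨ g m = -1) {y : ℕ} (hy : 1 ≤ y) :
    g ((2 * y ^ 2 + 2 * y - 1) ^ 2 - 2)
      = g ((4 * y ^ 2 + 2 * y - 2) ^ 2 - 2) * g ((4 * y ^ 2 + 6 * y) ^ 2 - 2) := by
  have h1 := cons_mul hm (show 2 ≤ 2 * y by omega)
  have h2 := cons_mul hm (show 2 ≤ 2 * y + 1 by omega)
  have e1 : (2 * y) ^ 2 + 2 * y - 2 = 4 * y ^ 2 + 2 * y - 2 := by
    have : (2 * y) ^ 2 = 4 * y ^ 2 := by ring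
    rw [this]
  have e2 : (2 * y + 1) ^ 2 + (2 * y + 1) - 2 = 4 * y ^ 2 + 6 * y := by
    have : (2 * y + 1) ^ 2 + (2 * y + 1) = 4 * y ^ 2 + 6 * y + 2 := by ring
    omega
  rw [e1] at h1
  rw [e2] at h2
  rw [← even_mul hm hv hy, ← h1, ← h2]
  have e3 : 2 * y + 1 + 1 = 2 * y + 2 := by ring
  rw [e3]
  have hpos : 0 < (2 * y + 1) ^ 2 - 2 := by
    have : 9 ≤ (2 * y + 1) ^ 2 := by nlinarith
    omega
  rcases hv _ hpos with h | h <;> rw [h] <;> ring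

/-- discrete intermediate value -/
theorem change (f : ℕ → ℤ) {a b : ℕ} (hab : a ≤ b) (h : f a ≠ f b) :
    ∃ n, a ≤ n ∧ n < b ∧ f n ≠ f (n + 1) := by
  induction b, hab using Nat.le_induction with
  | base => exact absurd rfl h
  | succ b hb ih =>
    by_cases h1 : f a = f b
    · exact ⟨b, hb, by omega, by rw [← h1]; exact h⟩
    · obtain ⟨n, h2, h3, h4⟩ := ih h1
      exact ⟨n, h2, by omega, h4⟩

/-- the points `p_y` -/
def pp (y : ℕ) : ℕ := 2 * y ^ 2 + 2 * y - 1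

theorem pp_succ (y : ℕ) (hy : 1 ≤ y) : pp (y + 1) = pp y + 4 * y + 4 := by
  unfold pp
  have : 2 * (y + 1) ^ 2 + 2 * (y + 1) = 2 * y ^ 2 + 2 * y + 4 * y + 4 := by ring
  have h2 : 4 ≤ 2 * y ^ 2 + 2 * y := by nlinarith
  omega

theorem pp_ge (y : ℕ) (hy : 1 ≤ y) : 3 ≤ pp y := by
  unfold pp
  have h2 : 4 ≤ 2 * y ^ 2 + 2 * y := by nlinarith
  omega

theorem pp_lt {y y' : ℕ} (hy : 1 ≤ y) (h : y < y') : pp (y + 1) ≤ pp y' := by
  unfold pp
  have h1 : y + 1 ≤ y' := h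
  have h2 : (y + 1) ^ 2 ≤ y' ^ 2 := Nat.pow_le_pow_left h1 2
  omega

/-- every `n ≥ 3` lies in one of the intervals `[p_y, p_{y+1})` -/
theorem exists_y (n : ℕ) (hn : 3 ≤ n) : ∃ y, 1 ≤ y ∧ pp y ≤ n ∧ n < pp (y + 1) := by
  induction n, hn using Nat.le_induction with
  | base => exact ⟨1, le_rfl, by unfold pp; norm_num, by unfold pp; norm_num⟩
  | succ n hn ih =>
    obtain ⟨y, h1, h2, h3⟩ := ih
    by_cases h4 : n + 1 < pp (y + 1)
    · exact ⟨y, h1, by omega, h4⟩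
    · refine ⟨y + 1, by omega, by omega, ?_⟩
      rw [pp_succ (y + 1) (by omega)]
      omega

open Classical in
/-- the indices `y` whose interval contains a value `-1` at some `n ≤ N` -/
noncomputable def YY (g : ℕ → ℤ) (N : ℕ) : Finset ℕ :=
  (Icc 1 N).filter (fun y => ∃ n, n ≤ N ∧ pp y ≤ n ∧ n < pp (y + 1) ∧ g (n ^ 2 - 2) = -1)

theorem YY_le {N y : ℕ} (hy : y ∈ YY g N) : 1 ≤ y ∧ pp y ≤ N := by
  classical
  unfold YY at hy
  rw [Finset.mem_filter, Finset.mem_Icc] at hy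
  obtain ⟨⟨h1, _⟩, n, h3, h4, _⟩ := hy
  exact ⟨h1, by omega⟩

/-- the map `y ↦` a sign change, two families -/
theorem YY_card (hm : ∀ m n : ℕ, 0 < m → 0 < n → g (m * n) = g m * g n)
    (hv : ∀ m : ℕ, 0 < m → g m = 1 ∨ g m = -1) (N : ℕ) :
    (YY g N).card ≤ 2 * (DD g (4 * N)).card := by
  classical
  -- first family: value `-1` at `p_y`
  have hA : ((YY g N).filter (fun y => g (pp y ^ 2 - 2) = -1)).card ≤ (DD g (4 * N)).card := by
    have hex : ∀ y ∈ (YY g N).filter (fun y => g (pp y ^ 2 - 2) = -1),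
        ∃ n, n ∈ DD g (4 * N) ∧ 4 * y ^ 2 + 2 * y - 2 ≤ n ∧ n < 4 * y ^ 2 + 6 * y := by
      intro y hy
      rw [Finset.mem_filter] at hy
      obtain ⟨h1, h2⟩ := YY_le hy.1
      have h3 := key hm hv h1
      have h4 : g ((2 * y ^ 2 + 2 * y - 1) ^ 2 - 2) = -1 := hy.2
      rw [h4] at h3
      have h5 : g ((4 * y ^ 2 + 2 * y - 2) ^ 2 - 2) ≠ g ((4 * y ^ 2 + 6 * y) ^ 2 - 2) := by
        intro h6
        rw [h6] at h3
        nlinarith [mul_self_nonneg (g ((4 * y ^ 2 + 6 * y) ^ 2 - 2))]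
      obtain ⟨n, h6, h7, h8⟩ := change (fun n => g (n ^ 2 - 2))
        (show 4 * y ^ 2 + 2 * y - 2 ≤ 4 * y ^ 2 + 6 * y by omega) h5
      refine ⟨n, ?_, h6, h7⟩
      unfold DD
      rw [Finset.mem_filter, Finset.mem_Icc]
      have h9 : 1 ≤ y ^ 2 := Nat.one_le_pow _ _ h1
      have h10 : y ≤ y ^ 2 := by nlinarith
      unfold pp at h2
      exact ⟨⟨by omega, by omega⟩, h8⟩
    choose! F hF1 hF2 hF3 using hex
    refine Finset.card_le_card_of_injOn F (fun y hy => hF1 y hy) ?_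
    intro y hy y' hy' heq
    rw [Finset.mem_coe] at hy hy'
    have a1 := hF2 y hy
    have a2 := hF3 y hy
    have a3 := hF2 y' hy'
    have a4 := hF3 y' hy'
    have b1 := (YY_le (Finset.mem_filter.mp hy).1).1
    have b2 := (YY_le (Finset.mem_filter.mp hy').1).1
    rw [← heq] at a3 a4
    rcases lt_trichotomy y y' with h | h | h
    · exfalso
      have h1 : (y + 1) ^ 2 ≤ y' ^ 2 := Nat.pow_le_pow_left h 2
      have h2 : (y + 1) ^ 2 = y ^ 2 + 2 * y + 1 := by ring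
      omega
    · exact h
    · exfalso
      have h1 : (y' + 1) ^ 2 ≤ y ^ 2 := Nat.pow_le_pow_left h 2
      have h2 : (y' + 1) ^ 2 = y' ^ 2 + 2 * y' + 1 := by ring
      omega
  -- second family
  have hB : ((YY g N).filter (fun y => ¬ g (pp y ^ 2 - 2) = -1)).card ≤ (DD g (4 * N)).card := by
    have hex : ∀ y ∈ (YY g N).filter (fun y => ¬ g (pp y ^ 2 - 2) = -1),
        ∃ n, n ∈ DD g (4 * N) ∧ pp y ≤ n ∧ n < pp (y + 1) := by
      intro y hy
      rw [Finset.mem_filter] at hy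
      obtain ⟨h1, h2⟩ := YY_le hy.1
      have hy1 := hy.1
      unfold YY at hy1
      rw [Finset.mem_filter] at hy1
      obtain ⟨_, n, h3, h4, h5, h6⟩ := hy1
      obtain ⟨n', h7, h8, h9⟩ := change (fun n => g (n ^ 2 - 2)) h4
        (show g (pp y ^ 2 - 2) ≠ g (n ^ 2 - 2) by rw [h6]; exact hy.2)
      refine ⟨n', ?_, h7, by omega⟩
      unfold DD
      rw [Finset.mem_filter, Finset.mem_Icc]
      have h10 := pp_ge y h1
      exact ⟨⟨by omega, by omega⟩, h9⟩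
    choose! F hF1 hF2 hF3 using hex
    refine Finset.card_le_card_of_injOn F (fun y hy => hF1 y hy) ?_
    intro y hy y' hy' heq
    rw [Finset.mem_coe] at hy hy'
    have a1 := hF2 y hy
    have a2 := hF3 y hy
    have a3 := hF2 y' hy'
    have a4 := hF3 y' hy'
    have b1 := (YY_le (Finset.mem_filter.mp hy).1).1
    have b2 := (YY_le (Finset.mem_filter.mp hy').1).1
    rw [← heq] at a3 a4
    rcases lt_trichotomy y y' with h | h | h
    · exfalso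
      have := pp_lt b1 h
      omega
    · exact h
    · exfalso
      have := pp_lt b2 h
      omega
  have hsplit := Finset.card_filter_add_card_filter_not (s := YY g N)
    (fun y => g (pp y ^ 2 - 2) = -1)
  omega

/-- one of `2, 7, 14` has sign `+1` -/
theorem plus_small (hm : ∀ m n : ℕ, 0 < m → 0 < n → g (m * n) = g m * g n)
    (hv : ∀ m : ℕ, 0 < m → g m = 1 ∨ g m = -1) :
    ∃ i, 2 ≤ i ∧ i ≤ 4 ∧ g (i ^ 2 - 2) = 1 := by
  have h14 : g 14 = g 2 * g 7 := by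
    have := hm 2 7 (by norm_num) (by norm_num)
    simpa using this
  rcases hv 2 (by norm_num) with h2 | h2
  · exact ⟨2, le_rfl, by norm_num, by simpa using h2⟩
  rcases hv 7 (by norm_num) with h7 | h7
  · exact ⟨3, by norm_num, by norm_num, by simpa using h7⟩
  refine ⟨4, by norm_num, le_rfl, ?_⟩
  have : g (4 ^ 2 - 2) = g 14 := by norm_num
  rw [this, h14, h2, h7]
  norm_num

/-- if there is a value `-1` at `j ≤ N`, `N ≥ 4`, there is a sign change -/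
theorem DD_pos (hm : ∀ m n : ℕ, 0 < m → 0 < n → g (m * n) = g m * g n)
    (hv : ∀ m : ℕ, 0 < m → g m = 1 ∨ g m = -1) {N j : ℕ} (hN : 4 ≤ N) (hj : 2 ≤ j)
    (hjN : j ≤ N) (h : g (j ^ 2 - 2) = -1) : 1 ≤ (DD g N).card := by
  obtain ⟨i, h1, h2, h3⟩ := plus_small hm hv
  rw [Nat.one_le_iff_ne_zero, Finset.card_ne_zero]
  rcases le_total i j with hij | hij
  · obtain ⟨n, h4, h5, h6⟩ := change (fun n => g (n ^ 2 - 2)) hij
      (show g (i ^ 2 - 2) ≠ g (j ^ 2 - 2) by rw [h, h3]; norm_num)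
    refine ⟨n, ?_⟩
    unfold DD
    rw [Finset.mem_filter, Finset.mem_Icc]
    exact ⟨⟨by omega, by omega⟩, h6⟩
  · obtain ⟨n, h4, h5, h6⟩ := change (fun n => g (n ^ 2 - 2)) hij
      (show g (j ^ 2 - 2) ≠ g (i ^ 2 - 2) by rw [h, h3]; norm_num)
    refine ⟨n, ?_⟩
    unfold DD
    rw [Finset.mem_filter, Finset.mem_Icc]
    exact ⟨⟨by omega, by omega⟩, h6⟩

/-- **the inequality** -/
theorem main_ineq (hm : ∀ m n : ℕ, 0 < m → 0 < n → g (m * n) = g m * g n)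
    (hv : ∀ m : ℕ, 0 < m → g m = 1 ∨ g m = -1) (N : ℕ) :
    ((MM g N).card : ℝ) ≤ 12 * Real.sqrt N * (DD g (4 * N)).card := by
  classical
  rcases Nat.eq_zero_or_pos (MM g N).card with h0 | hpos
  · rw [h0]
    push_cast
    positivity
  obtain ⟨j, hj⟩ := Finset.card_pos.mp hpos
  unfold MM at hj
  rw [Finset.mem_filter, Finset.mem_Icc] at hj
  obtain ⟨⟨hj2, hjN⟩, hj3⟩ := hj
  have hN2 : 2 ≤ N := hj2.trans hjN
  have hD1 := DD_pos hm hv (show 4 ≤ 4 * N by omega) hj2 (by omega) hj3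
  -- the largest y
  set s : ℕ := Nat.sqrt (2 * N + 3) with hs
  have hY : ∀ y ∈ YY g N, 2 * y + 1 ≤ s := by
    intro y hy
    obtain ⟨h1, h2⟩ := YY_le hy
    rw [hs, Nat.le_sqrt']
    unfold pp at h2
    have h3 : (2 * y + 1) ^ 2 = 4 * y ^ 2 + 4 * y + 1 := by ring
    omega
  have hcover : MM g N ⊆ {2} ∪ (YY g N).biUnion (fun y => Ico (pp y) (pp (y + 1))) := by
    intro n hn
    unfold MM at hn
    rw [Finset.mem_filter, Finset.mem_Icc] at hn
    obtain ⟨⟨h1, h2⟩, h3⟩ := hn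
    rw [Finset.mem_union, Finset.mem_singleton, Finset.mem_biUnion]
    by_cases h4 : n = 2
    · exact Or.inl h4
    right
    obtain ⟨y, h5, h6, h7⟩ := exists_y n (by omega)
    refine ⟨y, ?_, ?_⟩
    · unfold YY
      rw [Finset.mem_filter, Finset.mem_Icc]
      refine ⟨⟨h5, ?_⟩, n, h2, h6, h7, h3⟩
      unfold pp at h6
      have : y ≤ 2 * y ^ 2 + 2 * y - 1 := by omega
      omega
    · rw [Finset.mem_Ico]
      exact ⟨h6, h7⟩
  have hcard : (MM g N).card ≤ 1 + (YY g N).card * (2 * s + 2) := by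
    refine (Finset.card_le_card hcover).trans ((Finset.card_union_le _ _).trans ?_)
    rw [Finset.card_singleton]
    refine Nat.add_le_add_left ?_ 1
    refine Finset.card_biUnion_le_card_mul _ _ _ ?_
    intro y hy
    rw [Nat.card_Ico]
    have h1 := YY_le hy
    have h2 := hY y hy
    rw [pp_succ y h1.1]
    omega
  have hYc := YY_card hm hv N
  have h5 : (MM g N).card ≤ (4 * s + 5) * (DD g (4 * N)).card := by
    calc (MM g N).card ≤ 1 + (YY g N).card * (2 * s + 2) := hcard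
      _ ≤ (DD g (4 * N)).card + (2 * (DD g (4 * N)).card) * (2 * s + 2) :=
          Nat.add_le_add hD1 (Nat.mul_le_mul_right _ hYc)
      _ = _ := by ring
  have h6 : ((MM g N).card : ℝ) ≤ (4 * s + 5) * (DD g (4 * N)).card := by exact_mod_cast h5
  refine h6.trans (mul_le_mul_of_nonneg_right ?_ (Nat.cast_nonneg _))
  have hNr : (2 : ℝ) ≤ N := by exact_mod_cast hN2
  have hs2 : ((s : ℝ)) ^ 2 ≤ 2 * N + 3 := by
    have : s ^ 2 ≤ 2 * N + 3 := by rw [hs]; exact Nat.sqrt_le' _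
    exact_mod_cast this
  have hsN : Real.sqrt N ^ 2 = N := Real.sq_sqrt (by positivity)
  have hq : (1.4 : ℝ) ≤ Real.sqrt N := by
    refine Real.le_sqrt_of_sq_le ?_
    norm_num
    linarith
  have hpos' : 0 ≤ 12 * Real.sqrt N - 5 := by linarith
  have : 4 * (s : ℝ) ≤ 12 * Real.sqrt N - 5 := by
    refine abs_le_of_sq_le_sq' ?_ hpos' |>.2
    nlinarith
  linarith

end Pool.Agent.Lib.MP_0b748d_nt.SignChange
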