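import Pool.Agent.Lib.MP_0b748d_nt.P.Twist
import Pool.Agent.Lib.MP_0b748d_nt.SignChange

set_option autoImplicit false

/-!
# Many sign changes of `g (n^2 - 2)`
-/

namespace Pool.Agent.Lib.MP_0b748d_nt.SignChange

open Finset Pool.Agent.Lib.MP_0b748d_nt

variable {g : ℕ → ℤ}

theorem DD_mono {N M : ℕ} (h : N ≤ M) : DD g N ⊆ DD g M := by
  unfold DD
  exact Finset.filter_subset_filter _ (Finset.Icc_subset_Icc_right h)

theorem lower (ε : ℝ) (hε : 0 < ε) : ∃ C N₀ : ℕ, ∀ N : ℕ, N₀ ≤ N → ∀ g : ℕ → ℤ,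
    CM g → ∀ j : ℕ, 2 ≤ j → j ≤ N → g (j ^ 2 - 2) = -1 →
    Real.sqrt N / ((Real.log N) ^ C * (j : ℝ) ^ (2 + ε)) ≤ ((DD g N).card : ℝ) := by
  obtain ⟨C, N₀, h⟩ := sign_persistence ε hε
  refine ⟨C + 5, 4 * N₀ + 20, ?_⟩
  intro N hN g hg j hj hjN hjs
  have hm := hg.mul
  have hv := hg.val
  set M : ℕ := N / 4 with hM
  have hM0 : N₀ ≤ M := by omega
  have hM5 : N ≤ 5 * M := by omega
  have hM4 : 4 * M ≤ N := by omega
  have hMpos : 1 ≤ M := by omega
  have hN20 : (20 : ℝ) ≤ N := by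
    have : 20 ≤ N := by omega
    exact_mod_cast this
  have hlog : (2 : ℝ) ≤ Real.log N := by
    rw [Real.le_log_iff_exp_le (by linarith)]
    have h1 := Real.exp_one_lt_d9
    have h2 : Real.exp 2 = Real.exp 1 * Real.exp 1 := by
      rw [← Real.exp_add]
      norm_num
    rw [h2]
    have h3 := Real.exp_pos 1
    nlinarith
  have hjr : (2 : ℝ) ≤ j := by exact_mod_cast hj
  have hjpow : (0 : ℝ) < (j : ℝ) ^ (2 + ε) := Real.rpow_pos_of_pos (by linarith) _
  have hj2 : (j : ℝ) ^ (2 : ℕ) ≤ (j : ℝ) ^ (2 + ε) := by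
    rw [← Real.rpow_natCast]
    exact Real.rpow_le_rpow_of_exponent_le (by linarith) (by push_cast; linarith)
  have hlogpos : (0 : ℝ) < Real.log N := by linarith
  rcases Nat.lt_or_ge M j with hc | hc
  · -- large `j`
    have h1 := DD_pos (N := N) hm hv (by omega) hj hjN hjs
    have h1r : (1 : ℝ) ≤ ((DD g N).card : ℝ) := by exact_mod_cast h1
    refine le_trans ?_ h1r
    rw [div_le_one (by positivity)]
    have h2 : (1 : ℝ) ≤ (Real.log N) ^ (C + 5) := one_le_pow₀ (by linarith)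
    have h3 : (N : ℝ) ≤ 4 * j := by
      have : N ≤ 4 * j := by omega
      exact_mod_cast this
    have h4 : Real.sqrt N ≤ N := by
      rw [Real.sqrt_le_left (by linarith)]
      nlinarith
    have h5 : (N : ℝ) ≤ (j : ℝ) ^ (2 : ℕ) := by nlinarith
    calc Real.sqrt N ≤ (j : ℝ) ^ (2 + ε) := by linarith
      _ = 1 * (j : ℝ) ^ (2 + ε) := by ring
      _ ≤ _ := mul_le_mul_of_nonneg_right h2 hjpow.le
  · have h1 := h M hM0 g hg j hj hc
    have h2 : ((((Finset.Icc 2 M).filter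
        (fun n => n % 2 = j % 2 ∧ g (n ^ 2 - 2) = g (j ^ 2 - 2))).card : ℝ)) ≤
        ((MM g M).card : ℝ) := by
      have : (Finset.Icc 2 M).filter
        (fun n => n % 2 = j % 2 ∧ g (n ^ 2 - 2) = g (j ^ 2 - 2)) ⊆ MM g M := by
        intro n hn
        unfold MM
        rw [Finset.mem_filter] at hn ⊢
        exact ⟨hn.1, by rw [hn.2.2, hjs]⟩
      exact_mod_cast Finset.card_le_card this
    have h3 := main_ineq (g := g) hm hv M
    have h4 : ((DD g (4 * M)).card : ℝ) ≤ ((DD g N).card : ℝ) := by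
      exact_mod_cast Finset.card_le_card (DD_mono hM4)
    have hMr : (1 : ℝ) ≤ M := by exact_mod_cast hMpos
    have hM5r : (N : ℝ) ≤ 5 * M := by exact_mod_cast hM5
    have hMN : (M : ℝ) ≤ N := by
      have : M ≤ N := by omega
      exact_mod_cast this
    have hsM : 0 < Real.sqrt M := Real.sqrt_pos.mpr (by linarith)
    have hsMM : Real.sqrt M * Real.sqrt M = M := Real.mul_self_sqrt (by linarith)
    have hsNN : Real.sqrt N * Real.sqrt N = N := Real.mul_self_sqrt (by linarith)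
    have hsN0 : 0 ≤ Real.sqrt N := Real.sqrt_nonneg _
    have hsNM : Real.sqrt N ≤ 2.5 * Real.sqrt M := by
      refine abs_le_of_sq_le_sq' ?_ (by positivity) |>.2
      nlinarith
    have hlogM0 : 0 ≤ Real.log M := Real.log_nonneg hMr
    have hlogMN : Real.log M ≤ Real.log N := Real.log_le_log (by linarith) hMN
    rw [div_le_iff₀ (by positivity)]
    rcases eq_or_lt_of_le hlogM0 with hl0 | hl0
    · -- `M = 1`: impossible since `j ≤ M`
      exfalso
      have hM2 : (2 : ℝ) ≤ M := by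
        have : 2 ≤ M := hj.trans hc
        exact_mod_cast this
      have := Real.log_pos (show (1 : ℝ) < M by linarith)
      linarith
    have h5 : (M : ℝ) ≤ 12 * Real.sqrt M * ((DD g N).card : ℝ) *
        ((Real.log M) ^ C * (j : ℝ) ^ (2 + ε)) := by
      rw [← div_le_iff₀ (by positivity)]
      refine h1.trans (h2.trans (h3.trans ?_))
      exact mul_le_mul_of_nonneg_left h4 (by positivity)
    have h6 : Real.sqrt M ≤ 12 * ((DD g N).card : ℝ) *
        ((Real.log M) ^ C * (j : ℝ) ^ (2 + ε)) := by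
      have : Real.sqrt M * Real.sqrt M ≤ Real.sqrt M * (12 * ((DD g N).card : ℝ) *
        ((Real.log M) ^ C * (j : ℝ) ^ (2 + ε))) := by
        rw [hsMM]
        refine h5.trans (le_of_eq (by ring))
      exact le_of_mul_le_mul_left this hsM
    have h7 : (Real.log M) ^ C ≤ (Real.log N) ^ C := pow_le_pow_left₀ hlogM0 hlogMN _
    have h8 : (32 : ℝ) ≤ (Real.log N) ^ 5 := by
      calc (32 : ℝ) = 2 ^ 5 := by norm_num
        _ ≤ _ := pow_le_pow_left₀ (by norm_num) hlog _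
    calc Real.sqrt N ≤ 2.5 * Real.sqrt M := hsNM
      _ ≤ 2.5 * (12 * ((DD g N).card : ℝ) * ((Real.log N) ^ C * (j : ℝ) ^ (2 + ε))) := by
          refine mul_le_mul_of_nonneg_left (h6.trans ?_) (by norm_num)
          exact mul_le_mul_of_nonneg_left (mul_le_mul_of_nonneg_right h7 hjpow.le)
            (by positivity)
      _ = 30 * (((DD g N).card : ℝ) * ((Real.log N) ^ C * (j : ℝ) ^ (2 + ε))) := by ring
      _ ≤ (Real.log N) ^ 5 * (((DD g N).card : ℝ) * ((Real.log N) ^ C * (j : ℝ) ^ (2 + ε))) :=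
          mul_le_mul_of_nonneg_right (by linarith) (by positivity)
      _ = ((DD g N).card : ℝ) * ((Real.log N) ^ (C + 5) * (j : ℝ) ^ (2 + ε)) := by
          rw [pow_add]
          ring

theorem chiE_odd {n : ℕ} (hn : 2 ≤ n) (h : n % 2 = 1) : chiE (n ^ 2 - 2) = 1 := by
  haveI : Fact (Nat.Prime 2) := ⟨Nat.prime_two⟩
  obtain ⟨k, rfl⟩ : ∃ k, n = 2 * k + 1 := ⟨n / 2, by omega⟩
  have e : (2 * k + 1) ^ 2 = 4 * (k ^ 2 + k) + 1 := by ring
  have hk : 1 ≤ k ^ 2 + k := by nlinarith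
  simp only [chiE]
  rw [padicValNat.eq_zero_of_not_dvd (by omega)]
  norm_num

theorem chiE_val' {n : ℕ} (hn : 2 ≤ n) : chiE (n ^ 2 - 2) = - (-1) ^ n := by
  rcases Nat.mod_two_eq_zero_or_one n with h | h
  · rw [chiE_even hn h, (Nat.even_iff.mpr h).neg_one_pow]
  · rw [chiE_odd hn h, (Nat.odd_iff.mpr h).neg_one_pow]
    norm_num

theorem twist_MM (g : ℕ → ℤ) (N : ℕ) : MM (fun m => g m * chiE m) N
    = (Icc 2 N).filter (fun n => g (n ^ 2 - 2) = (-1) ^ n) := by
  unfold MM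
  refine Finset.filter_congr ?_
  intro n hn
  rw [Finset.mem_Icc] at hn
  show g (n ^ 2 - 2) * chiE (n ^ 2 - 2) = -1 ↔ _
  rw [chiE_val' hn.1]
  rcases neg_one_pow_eq_or ℤ n with h | h <;> rw [h] <;> constructor <;> intro h2 <;> omega

theorem twist_DD (g : ℕ → ℤ) (N : ℕ) : DD (fun m => g m * chiE m) N
    = (Icc 2 N).filter (fun n => g (n ^ 2 - 2) ≠ - g ((n + 1) ^ 2 - 2)) := by
  unfold DD
  refine Finset.filter_congr ?_
  intro n hn
  rw [Finset.mem_Icc] at hn
  show g (n ^ 2 - 2) * chiE (n ^ 2 - 2) ≠ g ((n + 1) ^ 2 - 2) * chiE ((n + 1) ^ 2 - 2) ↔ _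
  have hp : ((-1 : ℤ)) ^ (n + 1) = - (-1) ^ n := by rw [pow_succ]; ring
  rw [chiE_val' hn.1, chiE_val' (by omega : 2 ≤ n + 1), hp]
  rcases neg_one_pow_eq_or ℤ n with h | h <;> rw [h] <;> constructor <;> intro h2 h3 <;>
    apply h2 <;> linarith

theorem twist_DD' (hv : ∀ m : ℕ, 0 < m → g m = 1 ∨ g m = -1) (N : ℕ) :
    DD (fun m => g m * chiE m) N
    = (Icc 2 N).filter (fun n => g (n ^ 2 - 2) = g ((n + 1) ^ 2 - 2)) := by
  rw [twist_DD]
  refine Finset.filter_congr ?_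
  intro n hn
  rw [Finset.mem_Icc] at hn
  have h1 : 0 < n ^ 2 - 2 := by
    have : 4 ≤ n ^ 2 := by nlinarith
    omega
  have h2 : 0 < (n + 1) ^ 2 - 2 := by
    have : 4 ≤ (n + 1) ^ 2 := by nlinarith
    omega
  rcases hv _ h1 with a | a <;> rcases hv _ h2 with b | b <;> rw [a, b] <;> norm_num

end Pool.Agent.Lib.MP_0b748d_nt.SignChange
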